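import Mathlib

set_option autoImplicit false

namespace CubeSum

open Finset

/-- Orthogonality: a nonzero vector is detected by the characters. -/
theorem char_sum_zero {n : ℕ} (w : Fin n → ZMod 3) (hw : w ≠ 0) :
    ∑ u : Fin n → ZMod 3, ZMod.stdAddChar (N := 3) (u ⬝ᵥ w) = 0 := by
  classical
  obtain ⟨m, hm⟩ : ∃ m, w m ≠ 0 := by
    by_contra hcon
    push Not at hcon
    exact hw (funext hcon)
  let f : (Fin n → ZMod 3) →+ ZMod 3 :=
    { toFun := fun u => u ⬝ᵥ w
      map_zero' := by simp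
      map_add' := fun a b => by simp [add_dotProduct] }
  let ψ : AddChar (Fin n → ZMod 3) ℂ := (ZMod.stdAddChar (N := 3)).compAddMonoidHom f
  have hψ : ψ ≠ 1 := by
    intro h
    have h1 : ψ (Pi.single m 1) = 1 := by rw [h]; rfl
    have h2 : ψ (Pi.single m 1) = ZMod.stdAddChar (N := 3) (w m) := by
      change ZMod.stdAddChar (N := 3) (Pi.single m 1 ⬝ᵥ w) = _
      rw [single_dotProduct, one_mul]
    rw [h2] at h1
    have h3 : ZMod.stdAddChar (N := 3) (w m) = ZMod.stdAddChar (N := 3) 0 := by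
      rw [h1, AddChar.map_zero_eq_one]
    exact hm (ZMod.injective_stdAddChar h3)
  have := AddChar.sum_eq_zero_of_ne_one hψ
  exact this

/-- Cover criterion: if the signs `s` are such that every nonzero functional `u` takes the value
`-s e` at some element `e`, then the subset sums of the family are everything. -/
theorem subsetSum_of_cover {n : ℕ} {E : Type*} [Fintype E] [DecidableEq E]
    (h : E → Fin n → ZMod 3) (s : E → ZMod 3) (hs : ∀ e, s e ≠ 0)
    (hcov : ∀ u : Fin n → ZMod 3, u ≠ 0 → ∃ e, u ⬝ᵥ h e = - s e) (v : Fin n → ZMod 3) :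
    ∃ X : Finset E, ∑ e ∈ X, h e = v := by
  classical
  by_contra hcon
  push Not at hcon
  set χ := ZMod.stdAddChar (N := 3) with hχ
  have key : ∑ u : Fin n → ZMod 3, χ (-(u ⬝ᵥ v)) * ∏ e, (1 + -(χ (s e + u ⬝ᵥ h e))) = 0 := by
    have h1 : ∀ u : Fin n → ZMod 3, χ (-(u ⬝ᵥ v)) * ∏ e, (1 + -(χ (s e + u ⬝ᵥ h e)))
        = ∑ X ∈ (univ : Finset E).powerset,
            (∏ e ∈ X, (-(χ (s e)))) * χ (u ⬝ᵥ (∑ e ∈ X, h e - v)) := by
      intro u
      rw [Finset.prod_one_add, Finset.mul_sum]
      refine Finset.sum_congr rfl (fun X _ => ?_)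
      have h2 : ∀ e, -(χ (s e + u ⬝ᵥ h e)) = (-(χ (s e))) * χ (u ⬝ᵥ h e) := by
        intro e
        rw [AddChar.map_add_eq_mul]; ring
      rw [Finset.prod_congr rfl (fun e _ => h2 e), Finset.prod_mul_distrib]
      have h3 : χ (u ⬝ᵥ (∑ e ∈ X, h e - v)) = χ (-(u ⬝ᵥ v)) * ∏ e ∈ X, χ (u ⬝ᵥ h e) := by
        rw [dotProduct_sub, dotProduct_sum, sub_eq_add_neg, add_comm, AddChar.map_add_eq_mul]
        congr 1
        induction X using Finset.induction_on with
        | empty => simp
        | insert a X ha ih =>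
          rw [Finset.sum_insert ha, Finset.prod_insert ha, AddChar.map_add_eq_mul, ih (by simp)]
      rw [h3]; ring
    rw [Finset.sum_congr rfl (fun u _ => h1 u), Finset.sum_comm]
    refine Finset.sum_eq_zero (fun X _ => ?_)
    rw [← Finset.mul_sum, char_sum_zero _ (sub_ne_zero.mpr (hcon X)), mul_zero]
  rw [Finset.sum_eq_single 0] at key
  · simp only [zero_dotProduct, neg_zero, AddChar.map_zero_eq_one, one_mul, add_zero] at key
    rw [Finset.prod_eq_zero_iff] at key
    obtain ⟨e, -, he⟩ := key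
    have h4 : χ (s e) = χ 0 := by
      rw [AddChar.map_zero_eq_one]
      linear_combination -he
    exact hs e (ZMod.injective_stdAddChar h4)
  · intro u _ hu
    obtain ⟨e, he⟩ := hcov u hu
    rw [Finset.prod_eq_zero (mem_univ e), mul_zero]
    rw [he]
    simp
  · intro h; exact absurd (mem_univ _) h

end CubeSum
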