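import Mathlib

set_option autoImplicit false

namespace CubeSum

open Finset

/-- The sign attached to a Boolean. -/
def sg (b : Bool) : ZMod 3 := if b then 1 else -1

theorem sg_ne_zero (b : Bool) : sg b ≠ 0 := by
  cases b <;> decide

theorem sg_injective : Function.Injective sg := by
  intro a b h
  revert h
  cases a <;> cases b <;> decide

variable {E : Type*} [Fintype E] [DecidableEq E]

/-- support of a word -/
def wsupp (c : E → ZMod 3) : Finset E := univ.filter (fun e => c e ≠ 0)

theorem mem_wsupp (c : E → ZMod 3) (e : E) : e ∈ wsupp c ↔ c e ≠ 0 := by simp [wsupp]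

/-- the word `c` agrees with the signs `s` on its support -/
def Conf (c : E → ZMod 3) (s : E → Bool) : Prop := ∀ e, c e ≠ 0 → c e = sg (s e)

instance (c : E → ZMod 3) : DecidablePred (Conf c) := fun s => by unfold Conf; infer_instance

/-- The sign vectors which avoid the words of `I` supported in `X`. -/
noncomputable def goodSigns (I : Finset (E → ZMod 3)) (X : Finset E) : Finset (E → Bool) :=
  univ.filter (fun s => ∀ c ∈ I, wsupp c ⊆ X → ¬ Conf c s)

theorem mem_goodSigns (I : Finset (E → ZMod 3)) (X : Finset E) (s : E → Bool) :
    s ∈ goodSigns I X ↔ ∀ c ∈ I, wsupp c ⊆ X → ¬ Conf c s := by simp [goodSigns]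

theorem goodSigns_anti (I : Finset (E → ZMod 3)) {X Y : Finset E} (h : X ⊆ Y) :
    goodSigns I Y ⊆ goodSigns I X := by
  intro s hs
  rw [mem_goodSigns] at hs ⊢
  exact fun c hc hcX => hs c hc (hcX.trans h)

theorem goodSigns_local (I : Finset (E → ZMod 3)) (X S : Finset E) (hd : Disjoint X S)
    (s t : E → Bool) (hs : s ∈ goodSigns I X) (hst : ∀ e, e ∉ S → t e = s e) :
    t ∈ goodSigns I X := by
  rw [mem_goodSigns] at hs ⊢
  intro c hc hcX hconf
  refine hs c hc hcX (fun e he => ?_)
  have heX : e ∈ X := hcX ((mem_wsupp c e).2 he)
  have heS : e ∉ S := fun h => (Finset.disjoint_left.1 hd heX h)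
  rw [← hst e heS]
  exact hconf e he

theorem flip_count (G : Finset (E → Bool)) (c : E → ZMod 3)
    (hG : ∀ s ∈ G, ∀ t : E → Bool, (∀ e, e ∉ wsupp c → t e = s e) → t ∈ G) :
    2 ^ (wsupp c).card * (G.filter (Conf c)).card ≤ G.card := by
  classical
  rw [← Finset.card_powerset, ← Finset.card_product]
  refine Finset.card_le_card_of_injOn
    (fun p => fun e => if e ∈ p.1 then !(p.2 e) else p.2 e) ?_ ?_
  · intro p hp
    rw [Finset.mem_coe, Finset.mem_product, Finset.mem_powerset, Finset.mem_filter] at hp
    obtain ⟨hA, hsG, -⟩ := hp
    refine hG p.2 hsG _ (fun e he => ?_)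
    have : e ∉ p.1 := fun h => he (hA h)
    simp [this]
  · intro p hp q hq hpq
    rw [Finset.mem_coe, Finset.mem_product, Finset.mem_powerset, Finset.mem_filter] at hp hq
    obtain ⟨hA, -, hsc⟩ := hp
    obtain ⟨hB, -, htc⟩ := hq
    have hval : ∀ e ∈ wsupp c, p.2 e = q.2 e := by
      intro e he
      have he' := (mem_wsupp c e).1 he
      exact sg_injective ((hsc e he').symm.trans (htc e he'))
    have hAB : p.1 = q.1 := by
      ext e
      have he := congrFun hpq e
      dsimp only at he
      constructor
      · intro h
        by_contra h'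
        rw [if_pos h, if_neg h', hval e (hA h)] at he
        cases hqe : q.2 e <;> simp [hqe] at he
      · intro h
        by_contra h'
        rw [if_neg h', if_pos h, hval e (hB h)] at he
        cases hqe : q.2 e <;> simp [hqe] at he
    have hst : p.2 = q.2 := by
      funext e
      have he := congrFun hpq e
      dsimp only at he
      rw [← hAB] at he
      by_cases h : e ∈ p.1
      · exact hval e (hA h)
      · rw [if_neg h, if_neg h] at he
        exact he
    exact Prod.ext hAB hst

/-- Rosenfeld counting: if the words of `I` through each element are cheap, there is a sign vector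
with which no word of `I` agrees. -/
theorem exists_signs (I : Finset (E → ZMod 3)) (β : ℝ) (hβ : 0 < β)
    (hne : ∀ c ∈ I, c ≠ 0)
    (hsum : ∀ e : E, ∑ c ∈ I.filter (fun c => c e ≠ 0), (β⁻¹) ^ ((wsupp c).card - 1) ≤ 2 - β) :
    ∃ s : E → Bool, ∀ c ∈ I, ¬ Conf c s := by
  classical
  have main : ∀ m : ℕ, ∀ X : Finset E, X.card ≤ m → ∀ Y ⊆ X,
      ((goodSigns I Y).card : ℝ) * (β / 2) ^ (X.card - Y.card) ≤ ((goodSigns I X).card : ℝ) := by
    intro m
    induction m with
    | zero =>
      intro X hX Y hY
      have hX0 : X = ∅ := Finset.card_eq_zero.1 (Nat.le_zero.1 hX)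
      subst hX0
      have hY0 : Y = ∅ := Finset.subset_empty.1 hY
      subst hY0
      simp
    | succ m ih =>
      intro X hX Y hY
      by_cases hYX : Y = X
      · subst hYX; simp
      obtain ⟨e, heX, heY⟩ : ∃ e ∈ X, e ∉ Y := by
        by_contra hcon
        push Not at hcon
        exact hYX (Finset.Subset.antisymm hY hcon)
      set X' := X.erase e with hX'
      have hcard : X.card = X'.card + 1 := by
        rw [hX', Finset.card_erase_of_mem heX]
        have := Finset.card_pos.2 ⟨e, heX⟩
        omega
      have hYX' : Y ⊆ X' := by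
        intro y hy
        rw [hX', Finset.mem_erase]
        exact ⟨fun h => heY (h ▸ hy), hY hy⟩
      have hX'm : X'.card ≤ m := by omega
      have hstep : ((goodSigns I X').card : ℝ) * (β / 2) ≤ ((goodSigns I X).card : ℝ) := by
        have hcover : goodSigns I X' ⊆ goodSigns I X ∪
            (I.filter (fun c => c e ≠ 0)).biUnion
              (fun c => if wsupp c ⊆ X then (goodSigns I (X' \ wsupp c)).filter (Conf c)
                else ∅) := by
          intro s hs
          by_cases hsX : s ∈ goodSigns I X
          · exact Finset.mem_union_left _ hsX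
          refine Finset.mem_union_right _ ?_
          rw [mem_goodSigns] at hsX
          push Not at hsX
          obtain ⟨c, hcI, hcX, hconf⟩ := hsX
          rw [Finset.mem_biUnion]
          refine ⟨c, ?_, ?_⟩
          · rw [Finset.mem_filter]
            refine ⟨hcI, fun hce => ?_⟩
            refine (mem_goodSigns I X' s).1 hs c hcI ?_ hconf
            intro f hf
            rw [hX', Finset.mem_erase]
            refine ⟨fun h => ?_, hcX hf⟩
            rw [mem_wsupp, h] at hf
            exact hf hce
          · rw [if_pos hcX, Finset.mem_filter]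
            exact ⟨goodSigns_anti I Finset.sdiff_subset hs, hconf⟩
        have hc1 : ((goodSigns I X').card : ℝ) ≤ ((goodSigns I X).card : ℝ) +
            ∑ c ∈ I.filter (fun c => c e ≠ 0),
              (((if wsupp c ⊆ X then (goodSigns I (X' \ wsupp c)).filter (Conf c)
                else ∅ : Finset (E → Bool)).card : ℕ) : ℝ) := by
          have := (Finset.card_le_card hcover).trans ((Finset.card_union_le _ _).trans
            (Nat.add_le_add_left Finset.card_biUnion_le _))
          exact_mod_cast this
        have hc2 : ∀ c ∈ I.filter (fun c => c e ≠ 0),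
            (((if wsupp c ⊆ X then (goodSigns I (X' \ wsupp c)).filter (Conf c)
                else ∅ : Finset (E → Bool)).card : ℕ) : ℝ)
              ≤ (1 / 2) * (β⁻¹) ^ ((wsupp c).card - 1) * ((goodSigns I X').card : ℝ) := by
          intro c hc
          rw [Finset.mem_filter] at hc
          have hpos : 0 ≤ (1 / 2) * (β⁻¹) ^ ((wsupp c).card - 1) * ((goodSigns I X').card : ℝ) := by
            positivity
          by_cases hcX : wsupp c ⊆ X
          swap
          · rw [if_neg hcX]; simpa using hpos
          rw [if_pos hcX]
          have hflip := flip_count (goodSigns I (X' \ wsupp c)) c (fun s hs t hst =>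
            goodSigns_local I _ (wsupp c) Finset.sdiff_disjoint s t hs hst)
          have hih := ih X' hX'm (X' \ wsupp c) Finset.sdiff_subset
          have hecs : e ∈ wsupp c := (mem_wsupp c e).2 hc.2
          have hcw : X'.card - (X' \ wsupp c).card = (wsupp c).card - 1 := by
            have h1 : X' \ wsupp c = X \ wsupp c := by
              ext f
              rw [Finset.mem_sdiff, Finset.mem_sdiff, hX', Finset.mem_erase]
              constructor
              · rintro ⟨⟨_, h2⟩, h3⟩; exact ⟨h2, h3⟩
              · rintro ⟨h2, h3⟩
                exact ⟨⟨fun h => h3 (h ▸ hecs), h2⟩, h3⟩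
            have h2 : (X \ wsupp c).card = X.card - (wsupp c).card :=
              Finset.card_sdiff_of_subset hcX
            have h3 : (wsupp c).card ≤ X.card := Finset.card_le_card hcX
            have h4 : 0 < (wsupp c).card := Finset.card_pos.2 ⟨e, hecs⟩
            rw [h1, h2]
            omega
          rw [hcw] at hih
          have hwpos : 0 < (wsupp c).card := Finset.card_pos.2 ⟨e, hecs⟩
          obtain ⟨w, hw⟩ : ∃ w, (wsupp c).card = w + 1 := ⟨(wsupp c).card - 1, by omega⟩
          rw [hw] at hflip hih ⊢
          simp only [Nat.add_sub_cancel] at hih ⊢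
          have hflip' : (2 : ℝ) ^ (w + 1) *
              (((goodSigns I (X' \ wsupp c)).filter (Conf c)).card : ℝ)
              ≤ ((goodSigns I (X' \ wsupp c)).card : ℝ) := by exact_mod_cast hflip
          have hbpos : (0 : ℝ) < (β / 2) ^ w := by positivity
          have h5 : ((2 : ℝ) ^ (w + 1) *
              (((goodSigns I (X' \ wsupp c)).filter (Conf c)).card : ℝ)) * (β / 2) ^ w
              ≤ ((goodSigns I X').card : ℝ) :=
            (mul_le_mul_of_nonneg_right hflip' hbpos.le).trans hih
          have h6 : ((2 : ℝ) ^ (w + 1) *
              (((goodSigns I (X' \ wsupp c)).filter (Conf c)).card : ℝ)) * (β / 2) ^ w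
              = 2 * β ^ w * (((goodSigns I (X' \ wsupp c)).filter (Conf c)).card : ℝ) := by
            rw [div_pow]
            field_simp
            ring
          rw [h6] at h5
          have hβw : 0 < β ^ w := by positivity
          rw [inv_pow]
          rw [show (1 / 2 : ℝ) * (β ^ w)⁻¹ * ((goodSigns I X').card : ℝ)
            = ((goodSigns I X').card : ℝ) / (2 * β ^ w) by field_simp]
          rw [le_div_iff₀ (by positivity)]
          linarith
        have hc3 : ∑ c ∈ I.filter (fun c => c e ≠ 0),
              (((if wsupp c ⊆ X then (goodSigns I (X' \ wsupp c)).filter (Conf c)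
                else ∅ : Finset (E → Bool)).card : ℕ) : ℝ)
              ≤ (1 / 2) * (2 - β) * ((goodSigns I X').card : ℝ) := by
          refine (Finset.sum_le_sum hc2).trans ?_
          rw [← Finset.sum_mul, ← Finset.mul_sum]
          have h0 : (0 : ℝ) ≤ ((goodSigns I X').card : ℝ) := by positivity
          refine mul_le_mul_of_nonneg_right ?_ h0
          linarith [hsum e]
        linarith
      have hih2 := ih X' hX'm Y hYX'
      have hle : Y.card ≤ X'.card := Finset.card_le_card hYX'
      have hexp : X.card - Y.card = (X'.card - Y.card) + 1 := by omega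
      rw [hexp, pow_succ, ← mul_assoc]
      exact (mul_le_mul_of_nonneg_right hih2 (by positivity)).trans hstep
  have hfin := main (univ : Finset E).card univ le_rfl ∅ (Finset.empty_subset _)
  have h0 : goodSigns I ∅ = univ := by
    ext s
    rw [mem_goodSigns]
    constructor
    · intro _; exact mem_univ _
    · intro _ c hc hsub _
      refine hne c hc (funext fun e => ?_)
      by_contra h
      have := hsub ((mem_wsupp c e).2 h)
      simp at this
  have hpos : (0 : ℝ) < ((goodSigns I (univ : Finset E)).card : ℝ) := by
    refine lt_of_lt_of_le ?_ hfin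
    rw [h0]
    have : (0 : ℝ) < ((univ : Finset (E → Bool)).card : ℝ) := by
      exact_mod_cast Finset.card_pos.2 ⟨fun _ => true, mem_univ _⟩
    positivity
  have hne' : (goodSigns I (univ : Finset E)).Nonempty := by
    rw [← Finset.card_pos]; exact_mod_cast hpos
  obtain ⟨s, hs⟩ := hne'
  exact ⟨s, fun c hc => (mem_goodSigns I univ s).1 hs c hc (Finset.subset_univ _)⟩

end CubeSum
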