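import Mathlib
import Pool.Agent.Lib.MP_d9da44_co.Rosenfeld

set_option autoImplicit false

namespace CubeSum

open Finset

theorem sum_biUnion_le' {ι α : Type*} [DecidableEq ι] [DecidableEq α] (s : Finset ι)
    (t : ι → Finset α) (g : α → ℝ) (hg : ∀ x, 0 ≤ g x) :
    ∑ x ∈ s.biUnion t, g x ≤ ∑ i ∈ s, ∑ x ∈ t i, g x := by
  induction s using Finset.induction_on with
  | empty => simp
  | insert a s ha ih =>
    rw [Finset.biUnion_insert, Finset.sum_insert ha]
    have h1 := Finset.sum_union_inter (s₁ := t a) (s₂ := s.biUnion t) (f := g)
    have h2 : 0 ≤ ∑ x ∈ t a ∩ s.biUnion t, g x := Finset.sum_nonneg (fun x _ => hg x)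
    linarith

variable {n : ℕ} {F : Type*} [Fintype F] [DecidableEq F]

/-- the word of the coordinate vector `y` -/
def kval (a : F → Fin n → ZMod 3) (y : Fin n → ZMod 3) : F → ZMod 3 := fun f => a f ⬝ᵥ y

/-- `y` has no proper coordinate restriction whose word is a restriction of the word of `y` -/
def KIrr (a : F → Fin n → ZMod 3) (y : Fin n → ZMod 3) : Prop :=
  y ≠ 0 ∧ ∀ b : Fin n → ZMod 3, b ≠ 0 → (∀ m, b m = 0 ∨ b m = y m) →
    (∀ f, kval a b f = 0 ∨ kval a b f = kval a y f) → b = y

open Classical in
/-- the irreducible vectors compatible with the knowledge `(b, P)` -/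
noncomputable def kset (a : F → Fin n → ZMod 3) (b : Fin n → ZMod 3) (P : Finset F) :
    Finset (Fin n → ZMod 3) :=
  univ.filter (fun y => KIrr a y ∧ (∀ m, b m ≠ 0 → y m = b m) ∧
    ∀ f ∈ P, ∀ m, a f m ≠ 0 → b m = 0 → y m = 0)

theorem mem_kset (a : F → Fin n → ZMod 3) (b : Fin n → ZMod 3) (P : Finset F)
    (y : Fin n → ZMod 3) : y ∈ kset a b P ↔ KIrr a y ∧ (∀ m, b m ≠ 0 → y m = b m) ∧
    ∀ f ∈ P, ∀ m, a f m ≠ 0 → b m = 0 → y m = 0 := by
  simp [kset]

theorem kval_eq (a : F → Fin n → ZMod 3) (b : Fin n → ZMod 3) (P : Finset F)
    (y : Fin n → ZMod 3) (hy : y ∈ kset a b P) (f : F) (hf : f ∈ P) :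
    kval a y f = kval a b f := by
  rw [mem_kset] at hy
  unfold kval dotProduct
  refine Finset.sum_congr rfl (fun m _ => ?_)
  by_cases hb : b m = 0
  · by_cases ha : a f m = 0
    · rw [ha]; ring
    · rw [hy.2.2 f hf m ha hb, hb]
  · rw [hy.2.1 m hb]

theorem wsupp_sub (a : F → Fin n → ZMod 3) (b : Fin n → ZMod 3) (P : Finset F)
    (y : Fin n → ZMod 3) (hy : y ∈ kset a b P) : wsupp b ⊆ wsupp y := by
  intro m hm
  rw [mem_wsupp] at hm ⊢
  rw [mem_kset] at hy
  rw [hy.2.1 m hm]
  exact hm

/-- Kraft inequality for the exploration of irreducible words. -/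
theorem kraft (a : F → Fin n → ZMod 3) (D : ℕ) (hD : ∀ f, (wsupp (a f)).card ≤ D) (z ζ : ℝ)
    (hz : 0 ≤ z) (hζ : 0 ≤ ζ) (h : z + 2 * D * ζ ≤ 1) :
    ∀ N : ℕ, ∀ (b : Fin n → ZMod 3) (P : Finset F), b ≠ 0 →
      (n - (wsupp b).card) + (Fintype.card F - P.card) = N →
      (∀ f ∈ P, kval a b f ≠ 0) →
      ∑ y ∈ kset a b P, z ^ ((wsupp (kval a y)).card - P.card) *
        ζ ^ ((wsupp y).card - (wsupp b).card) ≤ 1 := by
  classical
  have hz1 : z ≤ 1 := by
    have : (0 : ℝ) ≤ 2 * D * ζ := by positivity
    linarith
  intro N
  induction N using Nat.strong_induction_on with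
  | _ N ih =>
    intro b P hb hN hP
    by_cases hcase : ∃ f, f ∉ P ∧ kval a b f ≠ 0
    · obtain ⟨f, hfP, hf⟩ := hcase
      set g : (Fin n → ZMod 3) → ℝ := fun y => z ^ ((wsupp (kval a y)).card - P.card) *
        ζ ^ ((wsupp y).card - (wsupp b).card) with hg
      have hg0 : ∀ y, 0 ≤ g y := fun y => by rw [hg]; positivity
      set M := (wsupp (a f)).filter (fun m => b m = 0) with hM
      have hcover : kset a b P ⊆ kset a b (insert f P) ∪
          M.biUnion (fun m => ({1, 2} : Finset (ZMod 3)).biUnion
            (fun c => (kset a b P).filter (fun y => y m = c))) := by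
        intro y hy
        by_cases hclosed : ∀ m, a f m ≠ 0 → b m = 0 → y m = 0
        · refine Finset.mem_union_left _ ?_
          have hy' := (mem_kset a b P y).1 hy
          rw [mem_kset]
          refine ⟨hy'.1, hy'.2.1, ?_⟩
          intro f' hf' m hm hbm
          rcases Finset.mem_insert.1 hf' with rfl | h'
          · exact hclosed m hm hbm
          · exact hy'.2.2 f' h' m hm hbm
        · refine Finset.mem_union_right _ ?_
          push Not at hclosed
          obtain ⟨m, hm, hbm, hym⟩ := hclosed
          rw [Finset.mem_biUnion]
          refine ⟨m, ?_, ?_⟩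
          · rw [hM, Finset.mem_filter, mem_wsupp]; exact ⟨hm, hbm⟩
          · rw [Finset.mem_biUnion]
            refine ⟨y m, ?_, ?_⟩
            · revert hym
              generalize y m = c
              revert c
              decide
            · rw [Finset.mem_filter]; exact ⟨hy, rfl⟩
      have hbcard : (wsupp b).card ≤ n := by
        simpa using Finset.card_le_univ (wsupp b)
      have hPcard : P.card < Fintype.card F := by
        have := Finset.card_le_univ (insert f P)
        rw [Finset.card_insert_of_notMem hfP] at this
        omega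
      -- first part
      have hpart1 : ∑ y ∈ kset a b (insert f P), g y ≤ z := by
        have hih := ih ((n - (wsupp b).card) + (Fintype.card F - (insert f P).card))
          (by rw [Finset.card_insert_of_notMem hfP]; omega) b (insert f P) hb rfl (by
            intro f' hf'
            rcases Finset.mem_insert.1 hf' with rfl | h'
            · exact hf
            · exact hP f' h')
        have heq : ∀ y ∈ kset a b (insert f P), g y =
            z * (z ^ ((wsupp (kval a y)).card - (insert f P).card) *
              ζ ^ ((wsupp y).card - (wsupp b).card)) := by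
          intro y hy
          have hsub : insert f P ⊆ wsupp (kval a y) := by
            intro f' hf'
            rw [mem_wsupp, kval_eq a b (insert f P) y hy f' hf']
            rcases Finset.mem_insert.1 hf' with rfl | h'
            · exact hf
            · exact hP f' h'
          have hc := Finset.card_le_card hsub
          have hins : (insert f P).card = P.card + 1 := Finset.card_insert_of_notMem hfP
          have hexp : (wsupp (kval a y)).card - P.card =
              ((wsupp (kval a y)).card - (insert f P).card) + 1 := by omega
          rw [hg]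
          simp only
          rw [hexp, pow_succ]
          ring
        rw [Finset.sum_congr rfl heq, ← Finset.mul_sum]
        calc z * _ ≤ z * 1 := mul_le_mul_of_nonneg_left hih hz
          _ = z := mul_one z
      -- second part
      have hpart2 : ∀ m ∈ M, ∀ c ∈ ({1, 2} : Finset (ZMod 3)),
          ∑ y ∈ (kset a b P).filter (fun y => y m = c), g y ≤ ζ := by
        intro m hm c hc
        rw [hM, Finset.mem_filter, mem_wsupp] at hm
        have hc0 : c ≠ 0 := by
          rcases Finset.mem_insert.1 hc with rfl | h'
          · decide
          · rw [Finset.mem_singleton.1 h']; decide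
        rcases ((kset a b P).filter (fun y => y m = c)).eq_empty_or_nonempty with he | ⟨y0, hy0⟩
        · rw [he]; simpa using hζ
        rw [Finset.mem_filter] at hy0
        have hy0' := (mem_kset a b P y0).1 hy0.1
        have hPm : ∀ f' ∈ P, a f' m = 0 := by
          intro f' hf'
          by_contra hne
          have := hy0'.2.2 f' hf' m hne hm.2
          rw [hy0.2] at this
          exact hc0 this
        set b' := Function.update b m c with hb'
        have hb'ne : b' ≠ 0 := by
          intro h0
          have := congrFun h0 m
          rw [hb', Function.update_self] at this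
          exact hc0 this
        have hvals : ∀ f' ∈ P, kval a b' f' = kval a b f' := by
          intro f' hf'
          unfold kval dotProduct
          refine Finset.sum_congr rfl (fun m' _ => ?_)
          by_cases hmm : m' = m
          · rw [hmm, hPm f' hf']; ring
          · rw [hb', Function.update_of_ne hmm]
        have hsupp : wsupp b' = insert m (wsupp b) := by
          ext m'
          rw [Finset.mem_insert, mem_wsupp, mem_wsupp, hb']
          by_cases hmm : m' = m
          · subst hmm; simp [hc0]
          · rw [Function.update_of_ne hmm]; simp [hmm]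
        have hmb : m ∉ wsupp b := by rw [mem_wsupp]; simpa using hm.2
        have hcard' : (wsupp b').card = (wsupp b).card + 1 := by
          rw [hsupp, Finset.card_insert_of_notMem hmb]
        have hb'card : (wsupp b').card ≤ n := by
          simpa using Finset.card_le_univ (wsupp b')
        have hih := ih ((n - (wsupp b').card) + (Fintype.card F - P.card))
          (by omega) b' P hb'ne rfl (by
            intro f' hf'
            rw [hvals f' hf']
            exact hP f' hf')
        have hsub : (kset a b P).filter (fun y => y m = c) ⊆ kset a b' P := by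
          intro y hy
          rw [Finset.mem_filter, mem_kset] at hy
          obtain ⟨⟨hirr, hyb, hyP⟩, hyc⟩ := hy
          rw [mem_kset]
          refine ⟨hirr, ?_, ?_⟩
          · intro m' hm'
            by_cases hmm : m' = m
            · subst hmm; rw [hb', Function.update_self]; exact hyc
            · rw [hb', Function.update_of_ne hmm] at hm' ⊢
              exact hyb m' hm'
          · intro f' hf' m' hm' hbm'
            by_cases hmm : m' = m
            · subst hmm; rw [hb', Function.update_self] at hbm'; exact absurd hbm' hc0
            · rw [hb', Function.update_of_ne hmm] at hbm'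
              exact hyP f' hf' m' hm' hbm'
        have heq : ∀ y ∈ kset a b' P, g y =
            ζ * (z ^ ((wsupp (kval a y)).card - P.card) *
              ζ ^ ((wsupp y).card - (wsupp b').card)) := by
          intro y hy
          have hcy := Finset.card_le_card (wsupp_sub a b' P y hy)
          have hexp : (wsupp y).card - (wsupp b).card =
              ((wsupp y).card - (wsupp b').card) + 1 := by omega
          rw [hg]
          simp only
          rw [hexp, pow_succ]
          ring
        calc ∑ y ∈ (kset a b P).filter (fun y => y m = c), g y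
            ≤ ∑ y ∈ kset a b' P, g y :=
              Finset.sum_le_sum_of_subset_of_nonneg hsub (fun y _ _ => hg0 y)
          _ = ζ * ∑ y ∈ kset a b' P, (z ^ ((wsupp (kval a y)).card - P.card) *
              ζ ^ ((wsupp y).card - (wsupp b').card)) := by
              rw [Finset.sum_congr rfl heq, ← Finset.mul_sum]
          _ ≤ ζ * 1 := mul_le_mul_of_nonneg_left hih hζ
          _ = ζ := mul_one ζ
      have hMcard : M.card ≤ D := (Finset.card_le_card (Finset.filter_subset _ _)).trans (hD f)
      have hsum2 : ∑ y ∈ M.biUnion (fun m => ({1, 2} : Finset (ZMod 3)).biUnion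
            (fun c => (kset a b P).filter (fun y => y m = c))), g y ≤ 2 * D * ζ := by
        refine (sum_biUnion_le' _ _ g hg0).trans ?_
        have h1 : ∀ m ∈ M, ∑ y ∈ ({1, 2} : Finset (ZMod 3)).biUnion
            (fun c => (kset a b P).filter (fun y => y m = c)), g y ≤ 2 * ζ := by
          intro m hm
          refine (sum_biUnion_le' _ _ g hg0).trans ?_
          refine (Finset.sum_le_sum (fun c hc => hpart2 m hm c hc)).trans ?_
          rw [Finset.sum_const, nsmul_eq_mul]
          have : ({1, 2} : Finset (ZMod 3)).card = 2 := by decide
          rw [this]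
          norm_num
        refine (Finset.sum_le_sum h1).trans ?_
        rw [Finset.sum_const, nsmul_eq_mul]
        have : (M.card : ℝ) ≤ D := by exact_mod_cast hMcard
        nlinarith
      calc ∑ y ∈ kset a b P, g y
          ≤ ∑ y ∈ kset a b (insert f P) ∪
            M.biUnion (fun m => ({1, 2} : Finset (ZMod 3)).biUnion
              (fun c => (kset a b P).filter (fun y => y m = c))), g y :=
            Finset.sum_le_sum_of_subset_of_nonneg hcover (fun y _ _ => hg0 y)
        _ ≤ ∑ y ∈ kset a b (insert f P), g y + ∑ y ∈
            M.biUnion (fun m => ({1, 2} : Finset (ZMod 3)).biUnion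
              (fun c => (kset a b P).filter (fun y => y m = c))), g y := by
            have h1 := Finset.sum_union_inter (s₁ := kset a b (insert f P))
              (s₂ := M.biUnion (fun m => ({1, 2} : Finset (ZMod 3)).biUnion
                (fun c => (kset a b P).filter (fun y => y m = c)))) (f := g)
            have h2 : 0 ≤ ∑ y ∈ kset a b (insert f P) ∩ M.biUnion (fun m =>
              ({1, 2} : Finset (ZMod 3)).biUnion
                (fun c => (kset a b P).filter (fun y => y m = c))), g y :=
              Finset.sum_nonneg (fun y _ => hg0 y)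
            linarith
        _ ≤ z + 2 * D * ζ := add_le_add hpart1 hsum2
        _ ≤ 1 := h
    · push Not at hcase
      have hsub : kset a b P ⊆ {b} := by
        intro y hy
        rw [Finset.mem_singleton]
        have hy' := (mem_kset a b P y).1 hy
        refine (hy'.1.2 b hb ?_ ?_).symm
        · intro m
          by_cases hbm : b m = 0
          · exact Or.inl hbm
          · exact Or.inr (hy'.2.1 m hbm).symm
        · intro f
          by_cases hfP : f ∈ P
          · exact Or.inr (kval_eq a b P y hy f hfP).symm
          · exact Or.inl (hcase f hfP)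
      refine (Finset.sum_le_sum_of_subset_of_nonneg hsub (fun y _ _ => by positivity)).trans ?_
      rw [Finset.sum_singleton, Nat.sub_self, pow_zero, mul_one]
      exact pow_le_one₀ hz hz1

/-- Kraft inequality started at one coordinate. -/
theorem kraft_single (a : F → Fin n → ZMod 3) (D : ℕ) (hD : ∀ f, (wsupp (a f)).card ≤ D)
    (z ζ : ℝ) (hz : 0 ≤ z) (hζ : 0 ≤ ζ) (h : z + 2 * D * ζ ≤ 1) (m : Fin n) (c : ZMod 3)
    (hc : c ≠ 0) (G : Finset (Fin n → ZMod 3)) (hG : ∀ y ∈ G, KIrr a y ∧ y m = c) :
    ∑ y ∈ G, z ^ (wsupp (kval a y)).card * ζ ^ ((wsupp y).card - 1) ≤ 1 := by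
  classical
  have hb : (Pi.single m c : Fin n → ZMod 3) ≠ 0 := by
    intro h0
    have := congrFun h0 m
    rw [Pi.single_eq_same] at this
    exact hc this
  have hs : wsupp (Pi.single m c : Fin n → ZMod 3) = {m} := by
    ext m'
    rw [mem_wsupp, Finset.mem_singleton]
    by_cases hmm : m' = m
    · subst hmm; simp [hc]
    · simp [hmm]
  have hk := kraft a D hD z ζ hz hζ h _ (Pi.single m c) ∅ hb rfl (by simp)
  rw [hs, Finset.card_singleton] at hk
  simp only [Finset.card_empty, Nat.sub_zero] at hk
  refine (Finset.sum_le_sum_of_subset_of_nonneg ?_ (fun y _ _ => by positivity)).trans hk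
  intro y hy
  obtain ⟨hirr, hym⟩ := hG y hy
  rw [mem_kset]
  refine ⟨hirr, ?_, by simp⟩
  intro m' hm'
  by_cases hmm : m' = m
  · subst hmm; rw [Pi.single_eq_same]; exact hym
  · rw [Pi.single_eq_of_ne hmm] at hm'
    exact absurd rfl hm'

end CubeSum
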