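import Mathlib
import Pool.Agent.Lib.MP_d9da44_co.Cover
import Pool.Agent.Lib.MP_d9da44_co.Rosenfeld
import Pool.Agent.Lib.MP_d9da44_co.Kraft

set_option autoImplicit false

namespace CubeSum

open Finset

variable {k n : ℕ}

/-- the vectors of the cubes -/
def hvec (T : Fin k → ((Fin n → ZMod 3) ≃ₗ[ZMod 3] (Fin n → ZMod 3))) (e : Fin k × Fin n) :
    Fin n → ZMod 3 := T e.1 (Pi.single e.2 1)

/-- the word of the functional `u` -/
def wd (T : Fin k → ((Fin n → ZMod 3) ≃ₗ[ZMod 3] (Fin n → ZMod 3))) (u : Fin n → ZMod 3) :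
    Fin k × Fin n → ZMod 3 := fun e => u ⬝ᵥ hvec T e

/-- the coordinates of the vectors with respect to the `i`-th basis -/
def acol (T : Fin k → ((Fin n → ZMod 3) ≃ₗ[ZMod 3] (Fin n → ZMod 3))) (i : Fin k)
    (e : Fin k × Fin n) : Fin n → ZMod 3 := (T i).symm (hvec T e)

/-- the coordinates of the functional `u` with respect to the `i`-th basis -/
def ycoord (T : Fin k → ((Fin n → ZMod 3) ≃ₗ[ZMod 3] (Fin n → ZMod 3))) (i : Fin k)
    (u : Fin n → ZMod 3) : Fin n → ZMod 3 := fun m => wd T u (i, m)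

/-- the functional with given coordinates -/
def udual (T : Fin k → ((Fin n → ZMod 3) ≃ₗ[ZMod 3] (Fin n → ZMod 3))) (i : Fin k)
    (y : Fin n → ZMod 3) : Fin n → ZMod 3 :=
  fun r => y ⬝ᵥ ((T i).symm (Pi.single r 1))

theorem vec_eq_sum (w : Fin n → ZMod 3) : w = ∑ r, w r • (Pi.single r (1 : ZMod 3) : Fin n → ZMod 3) := by
  funext m
  simp [Finset.sum_apply, Pi.single_apply]

theorem udual_dot (T : Fin k → ((Fin n → ZMod 3) ≃ₗ[ZMod 3] (Fin n → ZMod 3))) (i : Fin k)
    (y w : Fin n → ZMod 3) : udual T i y ⬝ᵥ w = y ⬝ᵥ ((T i).symm w) := by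
  conv_rhs => rw [vec_eq_sum w]
  rw [map_sum, dotProduct_sum]
  unfold dotProduct udual
  refine Finset.sum_congr rfl (fun r _ => ?_)
  rw [map_smul]
  simp only [Pi.smul_apply, smul_eq_mul, dotProduct]
  rw [Finset.sum_mul]
  refine Finset.sum_congr rfl (fun m _ => ?_)
  ring

theorem wd_eq (T : Fin k → ((Fin n → ZMod 3) ≃ₗ[ZMod 3] (Fin n → ZMod 3))) (i : Fin k)
    (u : Fin n → ZMod 3) (e : Fin k × Fin n) :
    wd T u e = kval (acol T i) (ycoord T i u) e := by
  have h1 : hvec T e = T i (acol T i e) := by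
    unfold acol; rw [LinearEquiv.apply_symm_apply]
  unfold wd kval
  conv_lhs => rw [h1, vec_eq_sum (acol T i e), map_sum, dotProduct_sum]
  unfold dotProduct ycoord wd hvec
  refine Finset.sum_congr rfl (fun m _ => ?_)
  rw [map_smul]
  simp only [dotProduct, Pi.smul_apply, smul_eq_mul]
  rw [Finset.mul_sum]
  refine Finset.sum_congr rfl (fun r _ => ?_)
  ring

theorem ycoord_udual (T : Fin k → ((Fin n → ZMod 3) ≃ₗ[ZMod 3] (Fin n → ZMod 3))) (i : Fin k)
    (y : Fin n → ZMod 3) : ycoord T i (udual T i y) = y := by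
  funext m
  unfold ycoord wd hvec
  rw [udual_dot]
  simp

theorem ycoord_inj (T : Fin k → ((Fin n → ZMod 3) ≃ₗ[ZMod 3] (Fin n → ZMod 3))) (i : Fin k)
    (u u' : Fin n → ZMod 3) (h : ycoord T i u = ycoord T i u') : u = u' := by
  funext r
  have h1 : ∀ w : Fin n → ZMod 3, u ⬝ᵥ w = u' ⬝ᵥ w := by
    intro w
    have hw : w = T i ((T i).symm w) := by simp
    rw [hw, vec_eq_sum ((T i).symm w), map_sum, dotProduct_sum, dotProduct_sum]
    refine Finset.sum_congr rfl (fun m _ => ?_)
    rw [map_smul, dotProduct_smul, dotProduct_smul]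
    have := congrFun h m
    unfold ycoord wd hvec at this
    rw [this]
  have := h1 (Pi.single r 1)
  simpa using this

theorem wd_inj (T : Fin k → ((Fin n → ZMod 3) ≃ₗ[ZMod 3] (Fin n → ZMod 3))) (i : Fin k)
    (u u' : Fin n → ZMod 3) (h : wd T u = wd T u') : u = u' := by
  apply ycoord_inj T i
  funext m
  unfold ycoord
  rw [h]

/-- irreducible functionals -/
def Irr (T : Fin k → ((Fin n → ZMod 3) ≃ₗ[ZMod 3] (Fin n → ZMod 3))) (u : Fin n → ZMod 3) : Prop :=
  u ≠ 0 ∧ ∀ u' : Fin n → ZMod 3, u' ≠ 0 → (∀ e, wd T u' e = 0 ∨ wd T u' e = wd T u e) → u' = u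

theorem udual_ne_zero (T : Fin k → ((Fin n → ZMod 3) ≃ₗ[ZMod 3] (Fin n → ZMod 3))) (i : Fin k)
    (y : Fin n → ZMod 3) (hy : y ≠ 0) : udual T i y ≠ 0 := by
  intro h
  apply hy
  rw [← ycoord_udual T i y, h]
  funext m
  simp [ycoord, wd]

theorem irr_kirr (T : Fin k → ((Fin n → ZMod 3) ≃ₗ[ZMod 3] (Fin n → ZMod 3))) (i : Fin k)
    (u : Fin n → ZMod 3) (hu : Irr T u) : KIrr (acol T i) (ycoord T i u) := by
  refine ⟨?_, ?_⟩
  · intro h
    apply hu.1
    apply ycoord_inj T i
    rw [h]
    funext m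
    simp [ycoord, wd]
  · intro b hb _ hval
    have h1 : udual T i b = u := by
      refine hu.2 _ (udual_ne_zero T i b hb) (fun e => ?_)
      rw [wd_eq T i (udual T i b) e, wd_eq T i u e, ycoord_udual]
      exact hval e
    rw [← h1, ycoord_udual]

theorem exists_irr (T : Fin k → ((Fin n → ZMod 3) ≃ₗ[ZMod 3] (Fin n → ZMod 3))) (i : Fin k)
    (s : Fin k × Fin n → Bool) (u : Fin n → ZMod 3) (hu : u ≠ 0) (hc : Conf (wd T u) s) :
    ∃ u', Irr T u' ∧ Conf (wd T u') s := by
  classical
  obtain ⟨v, hv, hmin⟩ := Finset.exists_min_image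
    (univ.filter (fun u : Fin n → ZMod 3 => u ≠ 0 ∧ Conf (wd T u) s))
    (fun u => (wsupp (wd T u)).card) ⟨u, by simp [hu, hc]⟩
  rw [Finset.mem_filter] at hv
  refine ⟨v, ⟨hv.2.1, ?_⟩, hv.2.2⟩
  intro u' hu' hres
  have hconf' : Conf (wd T u') s := by
    intro e he
    rcases hres e with h | h
    · exact absurd h he
    · rw [h] at he ⊢
      exact hv.2.2 e he
  have hle := hmin u' (by simp [hu', hconf'])
  have hsub : wsupp (wd T u') ⊆ wsupp (wd T v) := by
    intro e he
    rw [mem_wsupp] at he ⊢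
    rcases hres e with h | h
    · exact absurd h he
    · rw [← h]; exact he
  have heq := Finset.eq_of_subset_of_card_le hsub hle
  apply wd_inj T i
  funext e
  rcases hres e with h | h
  · have : e ∉ wsupp (wd T v) := by rw [← heq, mem_wsupp]; simpa using h
    rw [mem_wsupp] at this
    push Not at this
    rw [h, this]
  · exact h

/-- The weight of a word is the sum of its block weights. -/
theorem card_wd (T : Fin k → ((Fin n → ZMod 3) ≃ₗ[ZMod 3] (Fin n → ZMod 3)))
    (u : Fin n → ZMod 3) :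
    (wsupp (wd T u)).card = ∑ i, (wsupp (ycoord T i u)).card := by
  classical
  unfold wsupp ycoord
  simp only [Finset.card_filter]
  rw [← Finset.univ_product_univ, Finset.sum_product]

/-- Main step: short fundamental circuits give good signs. -/
theorem good_signs (T : Fin k → ((Fin n → ZMod 3) ≃ₗ[ZMod 3] (Fin n → ZMod 3))) (i0 : Fin k)
    (D : ℕ) (hD : ∀ i e, (wsupp (acol T i e)).card ≤ D) (z ζ x : ℝ) (hz : 0 < z) (hz1 : 1 ≤ 2 * z)
    (hζ : 0 ≤ ζ) (h : z + 2 * D * ζ ≤ 1)
    (hx : x = ((2 * z * z)⁻¹) ^ k) (h2z : 1 ≤ 2 * z * z) (hxζ : x ≤ ζ)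
    (hfin : 2 * k * D * (2 * z * x) ≤ 2 - 2 * z) :
    ∃ s : Fin k × Fin n → Bool, ∀ u : Fin n → ZMod 3, u ≠ 0 → ¬ Conf (wd T u) s := by
  classical
  set β : ℝ := 2 * z with hβ
  have hβ0 : 0 < β := by rw [hβ]; linarith
  have hx0 : 0 ≤ x := by rw [hx]; positivity
  set I : Finset (Fin k × Fin n → ZMod 3) :=
    (univ.filter (fun u : Fin n → ZMod 3 => Irr T u)).image (wd T) with hI
  have hmain := exists_signs I β hβ0 ?_ ?_
  · obtain ⟨s, hs⟩ := hmain
    refine ⟨s, fun u hu hc => ?_⟩
    obtain ⟨u', hu', hc'⟩ := exists_irr T i0 s u hu hc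
    exact hs (wd T u') (Finset.mem_image_of_mem _ (by simp [hu'])) hc'
  · intro c hc
    rw [hI, Finset.mem_image] at hc
    obtain ⟨u, hu, rfl⟩ := hc
    rw [Finset.mem_filter] at hu
    intro h0
    apply hu.2.1
    apply wd_inj T i0
    rw [h0]
    funext e
    simp [wd]
  · intro e
    have himg : I.filter (fun c => c e ≠ 0) =
        (univ.filter (fun u : Fin n → ZMod 3 => Irr T u ∧ wd T u e ≠ 0)).image (wd T) := by
      ext c
      rw [hI, Finset.mem_filter, Finset.mem_image, Finset.mem_image]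
      constructor
      · rintro ⟨⟨u, hu, rfl⟩, hce⟩
        rw [Finset.mem_filter] at hu
        exact ⟨u, by simp [hu.2, hce], rfl⟩
      · rintro ⟨u, hu, rfl⟩
        rw [Finset.mem_filter] at hu
        exact ⟨⟨u, by simp [hu.2.1], rfl⟩, hu.2.2⟩
    rw [himg, Finset.sum_image (fun u _ u' _ h => wd_inj T i0 u u' h)]
    set g : (Fin n → ZMod 3) → ℝ := fun u => (β⁻¹) ^ ((wsupp (wd T u)).card - 1) with hg
    have hg0 : ∀ u, 0 ≤ g u := fun u => by rw [hg]; positivity
    -- cover by lightest block, coordinate and value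
    have hcover : univ.filter (fun u : Fin n → ZMod 3 => Irr T u ∧ wd T u e ≠ 0) ⊆
        (univ : Finset (Fin k)).biUnion (fun i => (wsupp (acol T i e)).biUnion (fun m =>
          ({1, 2} : Finset (ZMod 3)).biUnion (fun c =>
            univ.filter (fun u : Fin n → ZMod 3 => Irr T u ∧
              k * (wsupp (ycoord T i u)).card ≤ (wsupp (wd T u)).card ∧ ycoord T i u m = c)))) := by
      intro u hu
      rw [Finset.mem_filter] at hu
      obtain ⟨-, hirr, hue⟩ := hu
      obtain ⟨i, -, hi⟩ := Finset.exists_min_image (univ : Finset (Fin k))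
        (fun i => (wsupp (ycoord T i u)).card) ⟨i0, mem_univ _⟩
      rw [wd_eq T i u e] at hue
      obtain ⟨m, -, hm⟩ : ∃ m ∈ (univ : Finset (Fin n)), acol T i e m * ycoord T i u m ≠ 0 := by
        by_contra hcon
        push Not at hcon
        apply hue
        unfold kval dotProduct
        exact Finset.sum_eq_zero hcon
      have hm1 : acol T i e m ≠ 0 := fun h0 => hm (by rw [h0, zero_mul])
      have hm2 : ycoord T i u m ≠ 0 := fun h0 => hm (by rw [h0, mul_zero])
      rw [Finset.mem_biUnion]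
      refine ⟨i, mem_univ _, ?_⟩
      rw [Finset.mem_biUnion]
      refine ⟨m, (mem_wsupp _ _).2 hm1, ?_⟩
      rw [Finset.mem_biUnion]
      refine ⟨ycoord T i u m, ?_, ?_⟩
      · revert hm2
        generalize ycoord T i u m = c
        revert c
        decide
      · rw [Finset.mem_filter]
        refine ⟨mem_univ _, hirr, ?_, rfl⟩
        rw [card_wd]
        have := Finset.card_nsmul_le_sum (univ : Finset (Fin k))
          (fun i' => (wsupp (ycoord T i' u)).card) (wsupp (ycoord T i u)).card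
          (fun i' _ => hi i' (mem_univ _))
        simpa using this
    -- inner bound
    have hinner : ∀ i : Fin k, ∀ m : Fin n, ∀ c ∈ ({1, 2} : Finset (ZMod 3)),
        ∑ u ∈ univ.filter (fun u : Fin n → ZMod 3 => Irr T u ∧
              k * (wsupp (ycoord T i u)).card ≤ (wsupp (wd T u)).card ∧ ycoord T i u m = c), g u
          ≤ β * x := by
      intro i m c hc
      have hc0 : c ≠ 0 := by
        rcases Finset.mem_insert.1 hc with rfl | h'
        · decide
        · rw [Finset.mem_singleton.1 h']; decide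
      set G := univ.filter (fun u : Fin n → ZMod 3 => Irr T u ∧
              k * (wsupp (ycoord T i u)).card ≤ (wsupp (wd T u)).card ∧ ycoord T i u m = c) with hG
      have hk := kraft_single (acol T i) D (fun e => hD i e) z ζ hz.le hζ h m c hc0
        (G.image (ycoord T i)) (by
          intro y hy
          rw [Finset.mem_image] at hy
          obtain ⟨u, hu, rfl⟩ := hy
          rw [hG, Finset.mem_filter] at hu
          exact ⟨irr_kirr T i u hu.2.1, hu.2.2.2⟩)
      rw [Finset.sum_image (fun u _ u' _ h => ycoord_inj T i u u' h)] at hk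
      have hbound : ∀ u ∈ G, g u ≤ β * x * (z ^ (wsupp (kval (acol T i) (ycoord T i u))).card *
          ζ ^ ((wsupp (ycoord T i u)).card - 1)) := by
        intro u hu
        rw [hG, Finset.mem_filter] at hu
        obtain ⟨-, hirr, hkw, hum⟩ := hu
        have hwd : kval (acol T i) (ycoord T i u) = wd T u := by
          funext e'; rw [wd_eq T i u e']
        rw [hwd]
        have hspos : 0 < (wsupp (ycoord T i u)).card :=
          Finset.card_pos.2 ⟨m, (mem_wsupp _ _).2 (by rw [hum]; exact hc0)⟩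
        obtain ⟨r, hr⟩ : ∃ r, (wsupp (ycoord T i u)).card = r + 1 :=
          ⟨(wsupp (ycoord T i u)).card - 1, by omega⟩
        rw [hr] at hkw ⊢
        simp only [Nat.add_sub_cancel]
        have hkpos : 0 < k := i0.pos
        obtain ⟨w, hw⟩ : ∃ w, (wsupp (wd T u)).card = w + 1 := by
          refine ⟨(wsupp (wd T u)).card - 1, ?_⟩
          have : 0 < k * (r + 1) := by positivity
          omega
        rw [hg]
        simp only
        rw [hw]
        rw [hw] at hkw
        simp only [Nat.add_sub_cancel]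
        -- β⁻¹^w = β β⁻¹^(w+1) = β z^(w+1) q^(w+1), q = (2 z z)⁻¹
        have hq : (β⁻¹) ^ w = β * (z ^ (w + 1) * ((2 * z * z)⁻¹) ^ (w + 1)) := by
          rw [← mul_pow]
          have : z * (2 * z * z)⁻¹ = β⁻¹ := by rw [hβ]; field_simp
          rw [this, pow_succ]
          field_simp
        have hq0 : 0 ≤ (2 * z * z)⁻¹ := by positivity
        have hq1 : (2 * z * z)⁻¹ ≤ 1 := inv_le_one_of_one_le₀ h2z
        have hq2 : ((2 * z * z)⁻¹) ^ (w + 1) ≤ x * ζ ^ r := by
          calc ((2 * z * z)⁻¹) ^ (w + 1) ≤ ((2 * z * z)⁻¹) ^ (k * (r + 1)) :=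
                pow_le_pow_of_le_one hq0 hq1 hkw
            _ = x ^ (r + 1) := by rw [pow_mul, ← hx]
            _ = x * x ^ r := by rw [pow_succ]; ring
            _ ≤ x * ζ ^ r := mul_le_mul_of_nonneg_left (pow_le_pow_left₀ hx0 hxζ r) hx0
        rw [hq]
        calc β * (z ^ (w + 1) * ((2 * z * z)⁻¹) ^ (w + 1))
            ≤ β * (z ^ (w + 1) * (x * ζ ^ r)) := by
              refine mul_le_mul_of_nonneg_left ?_ hβ0.le
              exact mul_le_mul_of_nonneg_left hq2 (by positivity)
          _ = β * x * (z ^ (w + 1) * ζ ^ r) := by ring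
      calc ∑ u ∈ G, g u ≤ ∑ u ∈ G, β * x *
            (z ^ (wsupp (kval (acol T i) (ycoord T i u))).card *
              ζ ^ ((wsupp (ycoord T i u)).card - 1)) := Finset.sum_le_sum hbound
        _ = β * x * ∑ u ∈ G, (z ^ (wsupp (kval (acol T i) (ycoord T i u))).card *
              ζ ^ ((wsupp (ycoord T i u)).card - 1)) := by rw [Finset.mul_sum]
        _ ≤ β * x * 1 := mul_le_mul_of_nonneg_left hk (by positivity)
        _ = β * x := mul_one _
    calc ∑ u ∈ univ.filter (fun u : Fin n → ZMod 3 => Irr T u ∧ wd T u e ≠ 0), g u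
        ≤ ∑ u ∈ (univ : Finset (Fin k)).biUnion (fun i => (wsupp (acol T i e)).biUnion (fun m =>
          ({1, 2} : Finset (ZMod 3)).biUnion (fun c =>
            univ.filter (fun u : Fin n → ZMod 3 => Irr T u ∧
              k * (wsupp (ycoord T i u)).card ≤ (wsupp (wd T u)).card ∧
                ycoord T i u m = c)))), g u :=
          Finset.sum_le_sum_of_subset_of_nonneg hcover (fun u _ _ => hg0 u)
      _ ≤ ∑ i : Fin k, ∑ m ∈ wsupp (acol T i e), ∑ c ∈ ({1, 2} : Finset (ZMod 3)), β * x := by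
          refine (sum_biUnion_le' _ _ g hg0).trans (Finset.sum_le_sum (fun i _ => ?_))
          refine (sum_biUnion_le' _ _ g hg0).trans (Finset.sum_le_sum (fun m _ => ?_))
          exact (sum_biUnion_le' _ _ g hg0).trans (Finset.sum_le_sum (fun c hc => hinner i m c hc))
      _ ≤ ∑ i : Fin k, ∑ m ∈ wsupp (acol T i e), 2 * (β * x) := by
          refine Finset.sum_le_sum (fun i _ => Finset.sum_le_sum (fun m _ => ?_))
          rw [Finset.sum_const, nsmul_eq_mul]
          have : ({1, 2} : Finset (ZMod 3)).card = 2 := by decide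
          rw [this]
          norm_num
      _ ≤ ∑ i : Fin k, D * (2 * (β * x)) := by
          refine Finset.sum_le_sum (fun i _ => ?_)
          rw [Finset.sum_const, nsmul_eq_mul]
          have h1 : ((wsupp (acol T i e)).card : ℝ) ≤ D := by exact_mod_cast hD i e
          exact mul_le_mul_of_nonneg_right h1 (by positivity)
      _ = 2 * k * D * (2 * z * x) := by
          rw [Finset.sum_const, nsmul_eq_mul, Finset.card_univ, Fintype.card_fin, hβ]
          ring
      _ ≤ 2 - 2 * z := hfin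

/-- From good signs to the sum of cubes. -/
theorem sum_of_signs (T : Fin k → ((Fin n → ZMod 3) ≃ₗ[ZMod 3] (Fin n → ZMod 3)))
    (s : Fin k × Fin n → Bool) (hs : ∀ u : Fin n → ZMod 3, u ≠ 0 → ¬ Conf (wd T u) s)
    (v : Fin n → ZMod 3) :
    ∃ x : Fin k → Fin n → ZMod 3, (∀ i j, x i j = 0 ∨ x i j = 1) ∧ ∑ i, T i (x i) = v := by
  classical
  obtain ⟨X, hX⟩ := subsetSum_of_cover (hvec T) (fun e => sg (s e)) (fun e => sg_ne_zero _)
    (fun u hu => by
      have h1 := hs u hu
      unfold Conf at h1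
      push Not at h1
      obtain ⟨e, he, hne⟩ := h1
      refine ⟨e, ?_⟩
      unfold wd at he hne
      revert he hne
      generalize u ⬝ᵥ hvec T e = a
      have hsg := sg_ne_zero (s e)
      revert hsg
      generalize sg (s e) = b
      revert a b
      decide) v
  refine ⟨fun i j => if (i, j) ∈ X then 1 else 0, ?_, ?_⟩
  · intro i j
    by_cases h : (i, j) ∈ X
    · right; simp [h]
    · left; simp [h]
  · rw [← hX]
    have h1 : ∀ i : Fin k, T i (fun j => if (i, j) ∈ X then (1 : ZMod 3) else 0)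
        = ∑ j, if (i, j) ∈ X then hvec T (i, j) else 0 := by
      intro i
      conv_lhs => rw [vec_eq_sum (fun j => if (i, j) ∈ X then (1 : ZMod 3) else 0), map_sum]
      refine Finset.sum_congr rfl (fun j _ => ?_)
      rw [map_smul]
      by_cases h : (i, j) ∈ X
      · simp [h, hvec]
      · simp [h]
    rw [Finset.sum_congr rfl (fun i _ => h1 i)]
    rw [← Fintype.sum_prod_type' (f := fun i j => if (i, j) ∈ X then hvec T (i, j) else 0)]
    rw [← Finset.sum_filter]
    congr 1
    ext e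
    simp

end CubeSum
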