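import Pool.Agent.Lib.MP_d9da44_co.Cover

set_option autoImplicit false

/-!
Base case: `k` disjoint bases of `B` modulo `A` have all of `B` (modulo `A`) as subset sums
when `(1 + 2 / 2^k)^n < 2`, `n = dim (B / A)` (random signs and the cover criterion).
-/

namespace LogStar

open Module Submodule Finset

/-- the weight of a value of a functional -/
noncomputable def cc (t : ZMod 3) : ℝ := if t = 0 then 1 else 1 / 2

theorem cc_nonneg (t : ZMod 3) : 0 ≤ cc t := by unfold cc; split_ifs <;> norm_num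

theorem sum_zmod3 (f : ZMod 3 → ℝ) : ∑ t, f t = f 0 + f 1 + f 2 := by
  have h : (Finset.univ : Finset (ZMod 3)) = {0, 1, 2} := by decide
  rw [h, Finset.sum_insert (by decide), Finset.sum_insert (by decide), Finset.sum_singleton]
  ring

theorem sum_cc_pow (k : ℕ) : ∑ t : ZMod 3, cc t ^ k = 1 + 2 / 2 ^ k := by
  rw [sum_zmod3]
  unfold cc
  rw [if_pos rfl, if_neg (by decide), if_neg (by decide)]
  simp only [one_pow, one_div, inv_pow]
  ring

/-- random signs: if the total weight is less than two, there is a good choice of signs. -/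
theorem exists_signs {n : ℕ} {E : Type*} [Fintype E] [DecidableEq E]
    (h : E → Fin n → ZMod 3)
    (hw : ∑ u : Fin n → ZMod 3, ∏ e, cc (u ⬝ᵥ h e) < 2) :
    ∃ s : E → ZMod 3, (∀ e, s e ≠ 0) ∧
      ∀ u : Fin n → ZMod 3, u ≠ 0 → ∃ e, u ⬝ᵥ h e = - s e := by
  classical
  let sg : Bool → ZMod 3 := fun b => if b then 1 else 2
  let a : (Fin n → ZMod 3) → E → Bool → ℝ := fun u e b => if u ⬝ᵥ h e = - sg b then 0 else 1 / 2
  have hsg : ∀ b, sg b ≠ 0 := by intro b; cases b <;> simp [sg] <;> decide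
  have hab : ∀ u e, ∑ b, a u e b = cc (u ⬝ᵥ h e) := by
    intro u e
    rw [Fintype.sum_bool]
    simp only [a, sg, if_true, Bool.false_eq_true, if_false]
    generalize u ⬝ᵥ h e = t
    have ht : t = 0 ∨ t = 1 ∨ t = 2 := by
      have hall : ∀ c : ZMod 3, c = 0 ∨ c = 1 ∨ c = 2 := by decide
      exact hall t
    unfold cc
    rcases ht with rfl | rfl | rfl
    · rw [if_neg (by decide), if_neg (by decide), if_pos rfl]; norm_num
    · rw [if_neg (by decide), if_pos (by decide), if_neg (by decide)]; norm_num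
    · rw [if_pos (by decide), if_neg (by decide), if_neg (by decide)]; norm_num
  have hkey : ∑ σ : E → Bool, ∑ u ∈ univ.erase (0 : Fin n → ZMod 3), ∏ e, a u e (σ e) < 1 := by
    rw [Finset.sum_comm]
    have h1 : ∀ u : Fin n → ZMod 3, ∑ σ : E → Bool, ∏ e, a u e (σ e) = ∏ e, cc (u ⬝ᵥ h e) := by
      intro u
      have h2 := Finset.prod_univ_sum (fun _ : E => (Finset.univ : Finset Bool)) (a u)
      rw [Fintype.piFinset_univ] at h2
      rw [← h2]
      exact Finset.prod_congr rfl (fun e _ => hab u e)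
    rw [Finset.sum_congr rfl (fun u _ => h1 u)]
    have h3 := Finset.add_sum_erase (s := (Finset.univ : Finset (Fin n → ZMod 3)))
      (f := fun u => ∏ e, cc (u ⬝ᵥ h e)) (a := 0) (Finset.mem_univ _)
    have h4 : ∏ e, cc ((0 : Fin n → ZMod 3) ⬝ᵥ h e) = 1 := by
      apply Finset.prod_eq_one
      intro e _
      rw [zero_dotProduct]
      simp [cc]
    simp only [h4] at h3
    linarith
  have hσ : ∃ σ : E → Bool, ∑ u ∈ univ.erase (0 : Fin n → ZMod 3), ∏ e, a u e (σ e) <
      (1 / 2) ^ Fintype.card E := by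
    by_contra hcon
    push Not at hcon
    have h5 : ∑ _σ : E → Bool, ((1 / 2 : ℝ)) ^ Fintype.card E ≤
        ∑ σ : E → Bool, ∑ u ∈ univ.erase (0 : Fin n → ZMod 3), ∏ e, a u e (σ e) :=
      Finset.sum_le_sum (fun σ _ => hcon σ)
    rw [Finset.sum_const, Finset.card_univ, Fintype.card_fun, Fintype.card_bool, nsmul_eq_mul]
      at h5
    push_cast at h5
    have h12 : (2 * (1 / 2) : ℝ) = 1 := by norm_num
    rw [← mul_pow, h12, one_pow] at h5
    linarith
  obtain ⟨σ, hσ⟩ := hσ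
  refine ⟨fun e => sg (σ e), fun e => hsg _, ?_⟩
  intro u hu
  by_contra hcon
  push Not at hcon
  have h6 : ∏ e, a u e (σ e) = (1 / 2) ^ Fintype.card E := by
    rw [Finset.prod_congr rfl (fun e _ => if_neg (hcon e)), Finset.prod_const, Finset.card_univ]
  have h7 : ∏ e, a u e (σ e) ≤ ∑ u ∈ univ.erase (0 : Fin n → ZMod 3), ∏ e, a u e (σ e) := by
    apply Finset.single_le_sum (f := fun u => ∏ e, a u e (σ e))
    · intro w _
      apply Finset.prod_nonneg
      intro e _
      simp only [a]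
      split_ifs <;> norm_num
    · exact Finset.mem_erase.mpr ⟨hu, Finset.mem_univ _⟩
  linarith

/-- AM-GM over the `k` bases. -/
theorem weight_bound {n k : ℕ} (hk0 : 0 < k) {F : Fin k → Type*} [∀ i, Fintype (F i)]
    (hcard : ∀ i, Fintype.card (F i) = n)
    (h : (i : Fin k) → F i → Fin n → ZMod 3)
    (hinj : ∀ i, ∀ u : Fin n → ZMod 3, (∀ j, u ⬝ᵥ h i j = 0) → u = 0) :
    ∑ u : Fin n → ZMod 3, ∏ e : (i : Fin k) × F i, cc (u ⬝ᵥ h e.1 e.2) ≤
      (1 + 2 / 2 ^ k : ℝ) ^ n := by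
  classical
  have hkR : (0 : ℝ) < k := by exact_mod_cast hk0
  have h1 : ∀ u : Fin n → ZMod 3, ∏ e : (i : Fin k) × F i, cc (u ⬝ᵥ h e.1 e.2) ≤
      ∑ i, (k : ℝ)⁻¹ * (∏ j, cc (u ⬝ᵥ h i j)) ^ k := by
    intro u
    rw [Fintype.prod_sigma]
    have h2 := Real.geom_mean_le_arith_mean_weighted (Finset.univ : Finset (Fin k))
      (fun _ => (k : ℝ)⁻¹) (fun i => (∏ j, cc (u ⬝ᵥ h i j)) ^ k)
      (fun _ _ => by positivity)
      (by simp [hkR.ne'])
      (fun i _ => pow_nonneg (Finset.prod_nonneg (fun j _ => cc_nonneg _)) _)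
    refine le_trans (le_of_eq ?_) h2
    apply Finset.prod_congr rfl
    intro i _
    rw [Real.pow_rpow_inv_natCast (Finset.prod_nonneg (fun j _ => cc_nonneg _)) hk0.ne']
  have h3 : ∀ i, ∑ u : Fin n → ZMod 3, (∏ j, cc (u ⬝ᵥ h i j)) ^ k = (1 + 2 / 2 ^ k : ℝ) ^ n := by
    intro i
    let Φ : (Fin n → ZMod 3) → (F i → ZMod 3) := fun u j => u ⬝ᵥ h i j
    have hΦinj : Function.Injective Φ := by
      intro u w huw
      have : u - w = 0 := by
        apply hinj i
        intro j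
        rw [sub_dotProduct]
        have := congrFun huw j
        simp only [Φ] at this
        rw [this, sub_self]
      exact sub_eq_zero.mp this
    have hΦ : Function.Bijective Φ := by
      rw [Fintype.bijective_iff_injective_and_card]
      refine ⟨hΦinj, ?_⟩
      rw [Fintype.card_fun, Fintype.card_fun, Fintype.card_fin, hcard i]
    have h4 : ∑ u : Fin n → ZMod 3, (∏ j, cc (u ⬝ᵥ h i j)) ^ k =
        ∑ t : F i → ZMod 3, (∏ j, cc (t j)) ^ k := by
      apply Fintype.sum_bijective Φ hΦ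
      intro u
      rfl
    rw [h4]
    have h5 := Finset.prod_univ_sum (fun _ : F i => (Finset.univ : Finset (ZMod 3)))
      (fun _ t => cc t ^ k)
    rw [Fintype.piFinset_univ] at h5
    simp only [← Finset.prod_pow]
    rw [← h5]
    rw [Finset.prod_const, Finset.card_univ, hcard i, sum_cc_pow]
  calc ∑ u : Fin n → ZMod 3, ∏ e : (i : Fin k) × F i, cc (u ⬝ᵥ h e.1 e.2)
      ≤ ∑ u : Fin n → ZMod 3, ∑ i, (k : ℝ)⁻¹ * (∏ j, cc (u ⬝ᵥ h i j)) ^ k :=
        Finset.sum_le_sum (fun u _ => h1 u)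
    _ = ∑ i : Fin k, (k : ℝ)⁻¹ * (1 + 2 / 2 ^ k : ℝ) ^ n := by
        rw [Finset.sum_comm]
        apply Finset.sum_congr rfl
        intro i _
        rw [← Finset.mul_sum, h3 i]
    _ = (1 + 2 / 2 ^ k : ℝ) ^ n := by
        rw [Finset.sum_const, Finset.card_univ, Fintype.card_fin, nsmul_eq_mul, ← mul_assoc,
          mul_inv_cancel₀ hkR.ne', one_mul]

section vec
variable {ι V : Type*} [AddCommGroup V] [Module (ZMod 3) V] [Finite V]

theorem base_complete (e : ι → V) (A B : Submodule (ZMod 3) V) (hAB : A ≤ B)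
    (k : ℕ) (hk0 : 0 < k) (I : Fin k → Finset ι)
    (hdisj : ∀ i i', i ≠ i' → Disjoint (I i) (I i'))
    (hB : ∀ i, ∀ j ∈ I i, e j ∈ B)
    (hcard : ∀ i, (I i).card = finrank (ZMod 3) B - finrank (ZMod 3) A)
    (hspan : ∀ i, A ⊔ span (ZMod 3) (e '' (I i : Set ι)) = B)
    (hk : (1 + 2 / 2 ^ k : ℝ) ^ (finrank (ZMod 3) B - finrank (ZMod 3) A) < 2)
    (v : V) (hv : v ∈ B) :
    ∃ X : Finset ι, (∀ j ∈ X, ∃ i, j ∈ I i) ∧ v - ∑ j ∈ X, e j ∈ A := by
  classical
  set n := finrank (ZMod 3) B - finrank (ZMod 3) A with hn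
  -- the quotient map onto `F_3^n`
  let A' : Submodule (ZMod 3) B := A.comap B.subtype
  have hA' : finrank (ZMod 3) A' = finrank (ZMod 3) A :=
    LinearEquiv.finrank_eq (Submodule.comapSubtypeEquivOfLe hAB)
  have hq : finrank (ZMod 3) (B ⧸ A') = n := by
    have := Submodule.finrank_quotient_add_finrank A'
    rw [hA'] at this
    omega
  let bq : Basis (Fin n) (ZMod 3) (B ⧸ A') := Module.finBasisOfFinrankEq (ZMod 3) (B ⧸ A') hq
  let f : B →ₗ[ZMod 3] (Fin n → ZMod 3) := bq.equivFun.toLinearMap ∘ₗ A'.mkQ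
  have hf_surj : Function.Surjective f := by
    intro y
    obtain ⟨x, hx⟩ := A'.mkQ_surjective (bq.equivFun.symm y)
    refine ⟨x, ?_⟩
    change bq.equivFun (A'.mkQ x) = y
    rw [hx, LinearEquiv.apply_symm_apply]
  have hf_ker : ∀ x : B, f x = 0 → (x : V) ∈ A := by
    intro x hx
    have h1 : A'.mkQ x = 0 := by
      have : bq.equivFun (A'.mkQ x) = 0 := hx
      simpa using this
    rw [Submodule.mkQ_apply, Submodule.Quotient.mk_eq_zero] at h1
    exact h1
  have hf_A : ∀ x : B, (x : V) ∈ A → f x = 0 := by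
    intro x hx
    have h1 : A'.mkQ x = 0 := by
      rw [Submodule.mkQ_apply, Submodule.Quotient.mk_eq_zero]
      exact hx
    simp [f, h1]
  let F : Fin k → Type _ := fun i => {j // j ∈ I i}
  let h : (i : Fin k) → F i → Fin n → ZMod 3 := fun i j => f ⟨e j.1, hB i j.1 j.2⟩
  have hinj : ∀ i, ∀ u : Fin n → ZMod 3, (∀ j, u ⬝ᵥ h i j = 0) → u = 0 := by
    intro i u hu
    -- the functional x ↦ u ⬝ f x vanishes
    have hall : ∀ x : V, ∀ hx : x ∈ A ⊔ span (ZMod 3) (e '' (I i : Set ι)),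
        ∀ hxB : x ∈ B, u ⬝ᵥ f ⟨x, hxB⟩ = 0 := by
      intro x hx hxB
      obtain ⟨a, ha, b, hb, rfl⟩ := Submodule.mem_sup.mp hx
      have haB : a ∈ B := hAB ha
      have hle : span (ZMod 3) (e '' (I i : Set ι)) ≤ B := by
        rw [← hspan i]; exact le_sup_right
      have hbB : b ∈ B := hle hb
      have h1 : f ⟨a + b, hxB⟩ = f ⟨a, haB⟩ + f ⟨b, hbB⟩ := by
        rw [← map_add]; rfl
      rw [h1, hf_A ⟨a, haB⟩ ha, zero_add]
      clear h1 hx hxB
      induction hb using Submodule.span_induction with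
      | mem y hy =>
        obtain ⟨j, hj, rfl⟩ := hy
        exact hu ⟨j, hj⟩
      | zero =>
        have : f ⟨0, hbB⟩ = 0 := map_zero f
        rw [this, dotProduct_zero]
      | add y z hy hz ihy ihz =>
        have h2 : f ⟨y + z, hbB⟩ = f ⟨y, hle hy⟩ + f ⟨z, hle hz⟩ := by
          rw [← map_add]; rfl
        rw [h2, dotProduct_add, ihy (hle hy), ihz (hle hz), add_zero]
      | smul c y hy ihy =>
        have h2 : f ⟨c • y, hbB⟩ = c • f ⟨y, hle hy⟩ := by
          rw [← map_smul]; rfl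
        rw [h2, dotProduct_smul, ihy (hle hy), smul_zero]
    ext m
    obtain ⟨x, hx⟩ := hf_surj (Pi.single m 1)
    have h1 := hall x.1 (by rw [hspan i]; exact x.2) x.2
    have h2 : (⟨x.1, x.2⟩ : B) = x := rfl
    rw [h2, hx, dotProduct_single, mul_one] at h1
    simpa using h1
  have hcF : ∀ i, Fintype.card (F i) = n := by
    intro i
    simp only [F, Fintype.card_coe]
    exact hcard i
  have hw := lt_of_le_of_lt (weight_bound hk0 hcF h hinj) hk
  obtain ⟨s, hs, hcov⟩ := exists_signs (fun e : (i : Fin k) × F i => h e.1 e.2) hw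
  obtain ⟨X, hX⟩ := CubeSum.subsetSum_of_cover (fun e : (i : Fin k) × F i => h e.1 e.2) s hs hcov
    (f ⟨v, hv⟩)
  have hinj2 : Set.InjOn (fun x : (i : Fin k) × F i => x.2.1) (X : Set _) := by
    rintro ⟨i, j, hj⟩ _ ⟨i', j', hj'⟩ _ heq
    simp only at heq
    subst heq
    by_cases hii : i = i'
    · subst hii; rfl
    · exfalso
      exact (Finset.disjoint_left.mp (hdisj i i' hii)) hj hj'
  refine ⟨X.image (fun x => x.2.1), ?_, ?_⟩
  · intro j hj
    obtain ⟨x, _, rfl⟩ := Finset.mem_image.mp hj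
    exact ⟨x.1, x.2.2⟩
  · rw [Finset.sum_image hinj2]
    have hsB : ∑ x ∈ X, e x.2.1 ∈ B := B.sum_mem (fun x _ => hB x.1 x.2.1 x.2.2)
    have h1 : f ⟨v - ∑ x ∈ X, e x.2.1, B.sub_mem hv hsB⟩ = 0 := by
      have h2 : (⟨v - ∑ x ∈ X, e x.2.1, B.sub_mem hv hsB⟩ : B) =
          ⟨v, hv⟩ - ∑ x ∈ X, (⟨e x.2.1, hB x.1 x.2.1 x.2.2⟩ : B) := by
        ext
        simp
      rw [h2, map_sub, map_sum, ← hX, sub_eq_zero]
    exact hf_ker _ h1

end vec

end LogStar
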