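import Mathlib

set_option autoImplicit false

/-!
Common definitions for the log-star theorem on sums of cubes in `F_3^n`.
-/

namespace LogStar

open Module Submodule

variable {ι V : Type*} [AddCommGroup V] [Module (ZMod 3) V]

open Classical in
/-- the number of members `j` of `J` with `e j` in `B` and not in `A` -/
noncomputable def cnt (e : ι → V) (A B : Submodule (ZMod 3) V) (J : Finset ι) : ℕ :=
  (J.filter (fun j => e j ∈ B ∧ e j ∉ A)).card

/-- relative dimension, as a real number -/
noncomputable def dm (A B : Submodule (ZMod 3) V) : ℝ :=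
  (finrank (ZMod 3) B : ℝ) - (finrank (ZMod 3) A : ℝ)

/-- every quotient `B / W` with `A ≤ W ≤ B` sees at least `ρ * dim (B / W)` members -/
def Strong (e : ι → V) (ρ : ℝ) (A B : Submodule (ZMod 3) V) (J : Finset ι) : Prop :=
  ∀ W : Submodule (ZMod 3) V, A ≤ W → W ≤ B → ρ * dm W B ≤ (cnt e W B J : ℝ)

/-- the set `Σ_B(J) + A`: sums of a subset of `J` consisting of members in `B`, plus a vector
of `A` -/
def reach (e : ι → V) (A B : Submodule (ZMod 3) V) (J : Finset ι) : Set V :=
  {x | ∃ X : Finset ι, X ⊆ J ∧ (∀ j ∈ X, e j ∈ B) ∧ x - ∑ j ∈ X, e j ∈ A}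

end LogStar
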