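import Pool.Agent.Lib.MP_d9da44_co.LogStarMain

set_option autoImplicit false

/-!
Base packing for vectors over `F_3` (Edmonds): if every quotient `B / W` sees at least
`m * dim (B / W)` members then there are `m` disjoint bases of `B` modulo `A`.
-/

namespace LogStar

open Module Submodule

section shrink
variable {ι : Type*} [DecidableEq ι]

/-- normalised monotone submodular function -/
structure RankFn (g : Finset ι → ℕ) : Prop where
  empty : g ∅ = 0
  mono : ∀ S T, S ⊆ T → g S ≤ g T
  sub : ∀ S T, g (S ∪ T) + g (S ∩ T) ≤ g S + g T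

theorem shrink_step {g : Finset ι → ℕ} (hg : RankFn g) {m : ℕ} (C : Fin m → Finset ι)
    (I : Finset ι) (hC : ∀ K ⊆ I, K.card ≤ ∑ l, g (K ∩ C l)) (i : ι)
    (p q : Fin m) (hpq : p ≠ q) (hp : i ∈ C p) (hq : i ∈ C q) :
    (∀ K ⊆ I, K.card ≤ ∑ l, g (K ∩ (Function.update C p ((C p).erase i)) l)) ∨
    (∀ K ⊆ I, K.card ≤ ∑ l, g (K ∩ (Function.update C q ((C q).erase i)) l)) := by
  by_contra hcon
  push Not at hcon
  obtain ⟨⟨K1, hK1, h1⟩, ⟨K2, hK2, h2⟩⟩ := hcon
  set C1 := Function.update C p ((C p).erase i) with hC1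
  set C2 := Function.update C q ((C q).erase i) with hC2
  have hiK1 : i ∈ K1 := by
    by_contra hcon
    have : ∀ l, K1 ∩ C1 l = K1 ∩ C l := by
      intro l
      rw [hC1]
      by_cases hl : l = p
      · subst hl
        rw [Function.update_self]
        ext x
        simp only [Finset.mem_inter, Finset.mem_erase]
        constructor
        · rintro ⟨ha, _, hb⟩; exact ⟨ha, hb⟩
        · rintro ⟨ha, hb⟩
          exact ⟨ha, fun h => hcon (h ▸ ha), hb⟩
      · rw [Function.update_of_ne hl]
    rw [Finset.sum_congr rfl (fun l _ => by rw [this l])] at h1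
    exact absurd (hC K1 hK1) (not_le.mpr h1)
  have hiK2 : i ∈ K2 := by
    by_contra hcon
    have : ∀ l, K2 ∩ C2 l = K2 ∩ C l := by
      intro l
      rw [hC2]
      by_cases hl : l = q
      · subst hl
        rw [Function.update_self]
        ext x
        simp only [Finset.mem_inter, Finset.mem_erase]
        constructor
        · rintro ⟨ha, _, hb⟩; exact ⟨ha, hb⟩
        · rintro ⟨ha, hb⟩
          exact ⟨ha, fun h => hcon (h ▸ ha), hb⟩
      · rw [Function.update_of_ne hl]
    rw [Finset.sum_congr rfl (fun l _ => by rw [this l])] at h2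
    exact absurd (hC K2 hK2) (not_le.mpr h2)
  have hmem1 : ∀ l x, x ∈ C1 l ↔ x ∈ C l ∧ ¬ (l = p ∧ x = i) := by
    intro l x
    rw [hC1]
    by_cases hl : l = p
    · subst hl
      rw [Function.update_self, Finset.mem_erase]
      tauto
    · rw [Function.update_of_ne hl]
      tauto
  have hmem2 : ∀ l x, x ∈ C2 l ↔ x ∈ C l ∧ ¬ (l = q ∧ x = i) := by
    intro l x
    rw [hC2]
    by_cases hl : l = q
    · subst hl
      rw [Function.update_self, Finset.mem_erase]
      tauto
    · rw [Function.update_of_ne hl]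
      tauto
  have hun : ∀ l, (K1 ∩ C1 l) ∪ (K2 ∩ C2 l) = (K1 ∪ K2) ∩ C l := by
    intro l
    ext x
    simp only [Finset.mem_union, Finset.mem_inter, hmem1, hmem2]
    constructor
    · rintro (⟨ha, hb, _⟩ | ⟨ha, hb, _⟩)
      · exact ⟨Or.inl ha, hb⟩
      · exact ⟨Or.inr ha, hb⟩
    · rintro ⟨ha, hb⟩
      by_cases hx : x = i
      · subst hx
        by_cases hl : l = p
        · right
          refine ⟨hiK2, hb, ?_⟩
          rintro ⟨h3, _⟩
          exact hpq (hl.symm.trans h3)
        · left
          exact ⟨hiK1, hb, fun h => hl h.1⟩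
      · rcases ha with ha | ha
        · exact Or.inl ⟨ha, hb, fun h => hx h.2⟩
        · exact Or.inr ⟨ha, hb, fun h => hx h.2⟩
  have hin : ∀ l, ((K1 ∩ K2).erase i) ∩ C l ⊆ (K1 ∩ C1 l) ∩ (K2 ∩ C2 l) := by
    intro l x hx
    simp only [Finset.mem_inter, Finset.mem_erase] at hx
    simp only [Finset.mem_inter, hmem1, hmem2]
    obtain ⟨⟨hx1, hx2, hx3⟩, hx4⟩ := hx
    exact ⟨⟨hx2, hx4, fun h => hx1 h.2⟩, ⟨hx3, hx4, fun h => hx1 h.2⟩⟩
  have h3 : ∑ l, g ((K1 ∪ K2) ∩ C l) + ∑ l, g (((K1 ∩ K2).erase i) ∩ C l) ≤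
      ∑ l, g (K1 ∩ C1 l) + ∑ l, g (K2 ∩ C2 l) := by
    rw [← Finset.sum_add_distrib, ← Finset.sum_add_distrib]
    apply Finset.sum_le_sum
    intro l _
    have h4 := hg.sub (K1 ∩ C1 l) (K2 ∩ C2 l)
    rw [hun l] at h4
    have h5 := hg.mono _ _ (hin l)
    omega
  have h4 := hC (K1 ∪ K2) (Finset.union_subset hK1 hK2)
  have h5 := hC ((K1 ∩ K2).erase i)
    ((Finset.erase_subset _ _).trans (Finset.inter_subset_left.trans hK1))
  have h6 : ((K1 ∩ K2).erase i).card + 1 = (K1 ∩ K2).card :=
    Finset.card_erase_add_one (Finset.mem_inter.mpr ⟨hiK1, hiK2⟩)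
  have h7 := Finset.card_union_add_card_inter K1 K2
  omega

theorem shrink {g : Finset ι → ℕ} (hg : RankFn g) {m : ℕ} (I : Finset ι) :
    ∀ (s : ℕ) (C : Fin m → Finset ι), ∑ l, (C l).card = s →
      (∀ l, C l ⊆ I) →
      (∀ K ⊆ I, K.card ≤ ∑ l, g (K ∩ C l)) →
      ∃ D : Fin m → Finset ι, (∀ l, D l ⊆ I) ∧ (∀ K ⊆ I, K.card ≤ ∑ l, g (K ∩ D l)) ∧
        (∀ p q, p ≠ q → Disjoint (D p) (D q)) := by
  intro s
  induction s using Nat.strong_induction_on with
  | _ s ih =>
  intro C hs hCI hC
  by_cases hd : ∀ p q, p ≠ q → Disjoint (C p) (C q)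
  · exact ⟨C, hCI, hC, hd⟩
  · push Not at hd
    obtain ⟨p, q, hpq, hnd⟩ := hd
    rw [Finset.not_disjoint_iff] at hnd
    obtain ⟨i, hip, hiq⟩ := hnd
    have hred : ∀ r, i ∈ C r → ∑ l, ((Function.update C r ((C r).erase i)) l).card < s := by
      intro r hr
      rw [← hs]
      apply Finset.sum_lt_sum
      · intro l _
        by_cases hl : l = r
        · subst hl
          rw [Function.update_self]
          exact Finset.card_le_card (Finset.erase_subset _ _)
        · rw [Function.update_of_ne hl]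
      · refine ⟨r, Finset.mem_univ _, ?_⟩
        rw [Function.update_self]
        exact Finset.card_erase_lt_of_mem hr
    have hsubs : ∀ r l, (Function.update C r ((C r).erase i)) l ⊆ I := by
      intro r l
      by_cases hl : l = r
      · subst hl
        rw [Function.update_self]
        exact (Finset.erase_subset _ _).trans (hCI l)
      · rw [Function.update_of_ne hl]
        exact hCI l
    rcases shrink_step hg C I hC i p q hpq hip hiq with h | h
    · exact ih _ (hred p hip) _ rfl (hsubs p) h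
    · exact ih _ (hred q hiq) _ rfl (hsubs q) h

end shrink

section vec
variable {ι V : Type*} [AddCommGroup V] [Module (ZMod 3) V] [Finite V]

/-- relative rank of the vectors indexed by `S` modulo `A` -/
noncomputable def rk (e : ι → V) (A : Submodule (ZMod 3) V) (S : Finset ι) : ℕ :=
  finrank (ZMod 3) ↥(A ⊔ span (ZMod 3) (e '' (S : Set ι))) - finrank (ZMod 3) A

theorem rk_add (e : ι → V) (A : Submodule (ZMod 3) V) (S : Finset ι) :
    rk e A S + finrank (ZMod 3) A = finrank (ZMod 3) ↥(A ⊔ span (ZMod 3) (e '' (S : Set ι))) := by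
  unfold rk
  have : finrank (ZMod 3) A ≤ finrank (ZMod 3) ↥(A ⊔ span (ZMod 3) (e '' (S : Set ι))) :=
    Submodule.finrank_mono le_sup_left
  omega

theorem rk_rankFn [DecidableEq ι] (e : ι → V) (A : Submodule (ZMod 3) V) : RankFn (rk e A) where
  empty := by
    unfold rk
    rw [Finset.coe_empty, Set.image_empty, span_empty, sup_bot_eq]
    simp
  mono := by
    intro S T h
    have h1 := rk_add e A S
    have h2 := rk_add e A T
    have h3 : finrank (ZMod 3) ↥(A ⊔ span (ZMod 3) (e '' (S : Set ι))) ≤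
        finrank (ZMod 3) ↥(A ⊔ span (ZMod 3) (e '' (T : Set ι))) := by
      apply Submodule.finrank_mono
      apply sup_le_sup_left
      apply span_mono
      apply Set.image_mono
      exact_mod_cast h
    omega
  sub := by
    intro S T
    have h1 := rk_add e A S
    have h2 := rk_add e A T
    have h3 := rk_add e A (S ∪ T)
    have h4 := rk_add e A (S ∩ T)
    have h5 := Submodule.finrank_sup_add_finrank_inf_eq
      (A ⊔ span (ZMod 3) (e '' (S : Set ι))) (A ⊔ span (ZMod 3) (e '' (T : Set ι)))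
    have h6 : finrank (ZMod 3) ↥(A ⊔ span (ZMod 3) (e '' ((S ∪ T : Finset ι) : Set ι))) ≤
        finrank (ZMod 3) ↥((A ⊔ span (ZMod 3) (e '' (S : Set ι))) ⊔
          (A ⊔ span (ZMod 3) (e '' (T : Set ι)))) := by
      apply Submodule.finrank_mono
      rw [Finset.coe_union, Set.image_union, span_union]
      apply sup_le
      · exact le_sup_of_le_left le_sup_left
      · exact sup_le (le_sup_of_le_left le_sup_right) (le_sup_of_le_right le_sup_right)
    have h7 : finrank (ZMod 3) ↥(A ⊔ span (ZMod 3) (e '' ((S ∩ T : Finset ι) : Set ι))) ≤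
        finrank (ZMod 3) ↥((A ⊔ span (ZMod 3) (e '' (S : Set ι))) ⊓
          (A ⊔ span (ZMod 3) (e '' (T : Set ι)))) := by
      apply Submodule.finrank_mono
      apply le_inf
      · apply sup_le_sup_left
        apply span_mono
        apply Set.image_mono
        intro x hx
        simp only [Finset.coe_inter, Set.mem_inter_iff] at hx
        exact hx.1
      · apply sup_le_sup_left
        apply span_mono
        apply Set.image_mono
        intro x hx
        simp only [Finset.coe_inter, Set.mem_inter_iff] at hx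
        exact hx.2
    omega

theorem finrank_sup_span_le (e : ι → V) (A : Submodule (ZMod 3) V) (S : Finset ι) :
    finrank (ZMod 3) ↥(A ⊔ span (ZMod 3) (e '' (S : Set ι))) ≤ finrank (ZMod 3) A + S.card := by
  classical
  have h1 := Submodule.finrank_sup_add_finrank_inf_eq A (span (ZMod 3) (e '' (S : Set ι)))
  have h2 : finrank (ZMod 3) ↥(span (ZMod 3) (e '' (S : Set ι))) ≤ S.card := by
    have h3 := finrank_span_finset_le_card (R := ZMod 3) (S.image e)
    rw [Finset.coe_image] at h3
    exact h3.trans Finset.card_image_le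
  omega

theorem rk_le_card (e : ι → V) (A : Submodule (ZMod 3) V) (S : Finset ι) :
    rk e A S ≤ S.card := by
  have := finrank_sup_span_le e A S
  unfold rk
  omega

open Classical in
/-- Edmonds base packing. -/
theorem exists_bases (e : ι → V) (A B : Submodule (ZMod 3) V) (hAB : A ≤ B)
    (J : Finset ι) (m : ℕ)
    (h : ∀ W : Submodule (ZMod 3) V, A ≤ W → W ≤ B →
      m * (finrank (ZMod 3) B - finrank (ZMod 3) W) ≤ cnt e W B J) :
    ∃ I : Fin m → Finset ι, (∀ i, I i ⊆ J) ∧ (∀ i i', i ≠ i' → Disjoint (I i) (I i')) ∧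
      (∀ i, ∀ j ∈ I i, e j ∈ B) ∧
      (∀ i, (I i).card = finrank (ZMod 3) B - finrank (ZMod 3) A) ∧
      (∀ i, A ⊔ span (ZMod 3) (e '' (I i : Set ι)) = B) := by
  -- maximal independent set
  let t : Finset ι → Submodule (ZMod 3) V → ℕ := fun I W => (I.filter (fun j => e j ∈ W)).card
  let P : Finset ι → Prop := fun I => (∀ j ∈ I, e j ∈ B) ∧ ∀ W : Submodule (ZMod 3) V, A ≤ W →
    W ≤ B → t I W ≤ m * (finrank (ZMod 3) W - finrank (ZMod 3) A)
  have hne : (J.powerset.filter P).Nonempty := ⟨∅, by
    simp only [Finset.mem_filter, Finset.mem_powerset]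
    refine ⟨by simp, by simp, fun W _ _ => by simp [t]⟩⟩
  obtain ⟨I, hI, hmax⟩ := Finset.exists_max_image (J.powerset.filter P) Finset.card hne
  rw [Finset.mem_filter, Finset.mem_powerset] at hI
  obtain ⟨hIJ, hIB, hIind⟩ := hI
  -- tight subspaces
  let tight : Submodule (ZMod 3) V → Prop := fun W => A ≤ W ∧ W ≤ B ∧
    t I W = m * (finrank (ZMod 3) W - finrank (ZMod 3) A)
  have htA : tight A := by
    refine ⟨le_rfl, hAB, ?_⟩
    have := hIind A le_rfl hAB
    simp only [Nat.sub_self, mul_zero] at this ⊢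
    omega
  have htsup : ∀ W1 W2, tight W1 → tight W2 → tight (W1 ⊔ W2) := by
    rintro W1 W2 ⟨ha1, hb1, hc1⟩ ⟨ha2, hb2, hc2⟩
    refine ⟨ha1.trans le_sup_left, sup_le hb1 hb2, ?_⟩
    apply le_antisymm (hIind _ (ha1.trans le_sup_left) (sup_le hb1 hb2))
    have h1 := hIind (W1 ⊓ W2) (le_inf ha1 ha2) (inf_le_left.trans hb1)
    have h2 : t I W1 + t I W2 ≤ t I (W1 ⊔ W2) + t I (W1 ⊓ W2) := by
      simp only [t]
      rw [← Finset.card_union_add_card_inter]
      apply Nat.add_le_add
      · apply Finset.card_le_card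
        intro j hj
        simp only [Finset.mem_union, Finset.mem_filter] at hj ⊢
        rcases hj with hj | hj
        · exact ⟨hj.1, (le_sup_left : W1 ≤ W1 ⊔ W2) hj.2⟩
        · exact ⟨hj.1, (le_sup_right : W2 ≤ W1 ⊔ W2) hj.2⟩
      · apply Finset.card_le_card
        intro j hj
        simp only [Finset.mem_inter, Finset.mem_filter] at hj ⊢
        exact ⟨hj.1.1, ⟨hj.1.2, hj.2.2⟩⟩
    have h3 := Submodule.finrank_sup_add_finrank_inf_eq W1 W2
    have h4 : finrank (ZMod 3) A ≤ finrank (ZMod 3) ↥(W1 ⊓ W2) :=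
      Submodule.finrank_mono (le_inf ha1 ha2)
    have h5 : finrank (ZMod 3) A ≤ finrank (ZMod 3) W1 := Submodule.finrank_mono ha1
    have h6 : finrank (ZMod 3) A ≤ finrank (ZMod 3) W2 := Submodule.finrank_mono ha2
    have h7 : finrank (ZMod 3) A ≤ finrank (ZMod 3) ↥(W1 ⊔ W2) :=
      Submodule.finrank_mono (ha1.trans le_sup_left)
    rw [hc1, hc2] at h2
    have h8 : m * (finrank (ZMod 3) W1 - finrank (ZMod 3) A) +
        m * (finrank (ZMod 3) W2 - finrank (ZMod 3) A) =
        m * (finrank (ZMod 3) ↥(W1 ⊔ W2) - finrank (ZMod 3) A) +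
        m * (finrank (ZMod 3) ↥(W1 ⊓ W2) - finrank (ZMod 3) A) := by
      rw [← mul_add, ← mul_add]
      congr 1
      omega
    omega
  have : Nonempty {W : Submodule (ZMod 3) V // tight W} := ⟨⟨A, htA⟩⟩
  obtain ⟨⟨Ws, hWs⟩, hWmax⟩ := Finite.exists_max
    (fun W : {W : Submodule (ZMod 3) V // tight W} => finrank (ZMod 3) W.1)
  have hlarge : ∀ W, tight W → W ≤ Ws := by
    intro W hW
    have h1 := hWmax ⟨W ⊔ Ws, htsup W Ws hW hWs⟩
    simp only at h1
    have h2 : Ws = W ⊔ Ws := by
      apply Submodule.eq_of_le_of_finrank_le le_sup_right h1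
    rw [h2]
    exact le_sup_left
  have hout : ∀ j ∈ J, e j ∈ B → j ∉ I → e j ∈ Ws := by
    intro j hj hjB hjI
    have hnot : ¬ P (insert j I) := by
      intro hP
      have h1 := hmax (insert j I) (by
        rw [Finset.mem_filter, Finset.mem_powerset]
        refine ⟨?_, hP⟩
        intro x hx
        rcases Finset.mem_insert.mp hx with h | h
        · rw [h]; exact hj
        · exact hIJ h)
      rw [Finset.card_insert_of_notMem hjI] at h1
      omega
    have hW : ∃ W : Submodule (ZMod 3) V, A ≤ W ∧ W ≤ B ∧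
        m * (finrank (ZMod 3) W - finrank (ZMod 3) A) < t (insert j I) W := by
      by_contra hcon
      push Not at hcon
      apply hnot
      refine ⟨?_, hcon⟩
      intro x hx
      rcases Finset.mem_insert.mp hx with h | h
      · rw [h]; exact hjB
      · exact hIB x h
    obtain ⟨W, hW1, hW2, hW3⟩ := hW
    have h1 := hIind W hW1 hW2
    by_cases hjW : e j ∈ W
    · apply hlarge W _ hjW
      refine ⟨hW1, hW2, ?_⟩
      have h2 : t (insert j I) W ≤ t I W + 1 := by
        simp only [t]
        rw [Finset.filter_insert, if_pos hjW]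
        exact Finset.card_insert_le _ _
      omega
    · exfalso
      have h2 : t (insert j I) W = t I W := by
        simp only [t]
        rw [Finset.filter_insert, if_neg hjW]
      omega
  have hIcard_ge : m * (finrank (ZMod 3) B - finrank (ZMod 3) A) ≤ I.card := by
    have h1 := h Ws hWs.1 hWs.2.1
    have h2 : cnt e Ws B J ≤ (I.filter (fun j => e j ∉ Ws)).card := by
      unfold cnt
      apply Finset.card_le_card
      intro j hj
      simp only [Finset.mem_filter] at hj ⊢
      refine ⟨?_, hj.2.2⟩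
      by_contra hcon
      exact hj.2.2 (hout j hj.1 hj.2.1 hcon)
    have h3 := Finset.card_filter_add_card_filter_not (s := I) (fun j => e j ∈ Ws)
    have h4 : t I Ws = m * (finrank (ZMod 3) Ws - finrank (ZMod 3) A) := hWs.2.2
    have h4' : (I.filter (fun j => e j ∈ Ws)).card =
      m * (finrank (ZMod 3) Ws - finrank (ZMod 3) A) := h4
    have h5 : finrank (ZMod 3) A ≤ finrank (ZMod 3) Ws := Submodule.finrank_mono hWs.1
    have h6 : finrank (ZMod 3) Ws ≤ finrank (ZMod 3) B := Submodule.finrank_mono hWs.2.1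
    have h7 : m * (finrank (ZMod 3) B - finrank (ZMod 3) A) =
        m * (finrank (ZMod 3) B - finrank (ZMod 3) Ws) +
        m * (finrank (ZMod 3) Ws - finrank (ZMod 3) A) := by
      rw [← mul_add]; congr 1; omega
    omega
  have hIcard_le : I.card ≤ m * (finrank (ZMod 3) B - finrank (ZMod 3) A) := by
    have h1 := hIind B hAB le_rfl
    have h2 : t I B = I.card := by
      simp only [t]
      rw [Finset.filter_true_of_mem hIB]
    omega
  -- colouring
  have hstart : ∀ K ⊆ I, K.card ≤ ∑ l : Fin m, rk e A (K ∩ (fun _ : Fin m => I) l) := by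
    intro K hK
    simp only [Finset.inter_eq_left.mpr hK, Finset.sum_const, Finset.card_univ, Fintype.card_fin,
      smul_eq_mul]
    have hspan : A ⊔ span (ZMod 3) (e '' (K : Set ι)) ≤ B := by
      apply sup_le hAB
      rw [span_le]
      rintro _ ⟨j, hj, rfl⟩
      exact hIB j (hK hj)
    have h1 := hIind _ le_sup_left hspan
    have h2 : K.card ≤ t I (A ⊔ span (ZMod 3) (e '' (K : Set ι))) := by
      simp only [t]
      apply Finset.card_le_card
      intro j hj
      rw [Finset.mem_filter]
      refine ⟨hK hj, ?_⟩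
      apply Submodule.mem_sup_right
      exact subset_span ⟨j, hj, rfl⟩
    exact h2.trans h1
  obtain ⟨D, hDI, hD, hdisj⟩ := shrink (rk_rankFn e A) I _ (fun _ : Fin m => I) rfl
    (fun _ => le_rfl) hstart
  have hDtot := hD I le_rfl
  have hDle : ∀ l, rk e A (D l) ≤ finrank (ZMod 3) B - finrank (ZMod 3) A := by
    intro l
    unfold rk
    apply Nat.sub_le_sub_right
    apply Submodule.finrank_mono
    apply sup_le hAB
    rw [span_le]
    rintro _ ⟨j, hj, rfl⟩
    exact hIB j (hDI l hj)
  have hID : ∀ l, I ∩ D l = D l := fun l => Finset.inter_eq_right.mpr (hDI l)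
  simp only [hID] at hDtot
  have hrk : ∀ l, rk e A (D l) = finrank (ZMod 3) B - finrank (ZMod 3) A := by
    by_contra hcon
    push Not at hcon
    obtain ⟨l0, hl0⟩ := hcon
    have : ∑ l, rk e A (D l) < ∑ _l : Fin m, (finrank (ZMod 3) B - finrank (ZMod 3) A) := by
      apply Finset.sum_lt_sum (fun l _ => hDle l)
      exact ⟨l0, Finset.mem_univ _, lt_of_le_of_ne (hDle l0) hl0⟩
    simp only [Finset.sum_const, Finset.card_univ, Fintype.card_fin, smul_eq_mul] at this
    omega
  have hsumcard : ∑ l, (D l).card ≤ I.card := by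
    rw [← Finset.card_biUnion (fun p _ q _ hpq => hdisj p q hpq)]
    apply Finset.card_le_card
    rw [Finset.biUnion_subset]
    exact fun l _ => hDI l
  have hcardge : ∀ l, finrank (ZMod 3) B - finrank (ZMod 3) A ≤ (D l).card := by
    intro l
    rw [← hrk l]
    exact rk_le_card e A (D l)
  have hcard : ∀ l, (D l).card = finrank (ZMod 3) B - finrank (ZMod 3) A := by
    by_contra hcon
    push Not at hcon
    obtain ⟨l0, hl0⟩ := hcon
    have : ∑ _l : Fin m, (finrank (ZMod 3) B - finrank (ZMod 3) A) < ∑ l, (D l).card := by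
      apply Finset.sum_lt_sum (fun l _ => hcardge l)
      exact ⟨l0, Finset.mem_univ _, lt_of_le_of_ne (hcardge l0) (Ne.symm hl0)⟩
    simp only [Finset.sum_const, Finset.card_univ, Fintype.card_fin, smul_eq_mul] at this
    omega
  refine ⟨D, fun l => (hDI l).trans hIJ, hdisj, fun l j hj => hIB j (hDI l hj), hcard, ?_⟩
  intro l
  have hle : A ⊔ span (ZMod 3) (e '' (D l : Set ι)) ≤ B := by
    apply sup_le hAB
    rw [span_le]
    rintro _ ⟨j, hj, rfl⟩
    exact hIB j (hDI l hj)
  apply Submodule.eq_of_le_of_finrank_eq hle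
  have h1 := rk_add e A (D l)
  have h2 := hrk l
  have h3 : finrank (ZMod 3) A ≤ finrank (ZMod 3) B := Submodule.finrank_mono hAB
  omega

end vec

end LogStar
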