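import Pool.Agent.Lib.MP_d9da44_co.LogStarMain

set_option autoImplicit false

/-!
The loss `log |B| - log |Σ_B(J) + A|` satisfies the axioms of `Loss`.
-/

namespace LogStar

open Module Submodule

variable {ι V : Type*} [AddCommGroup V] [Module (ZMod 3) V]

theorem reach_sub (e : ι → V) {A B : Submodule (ZMod 3) V} (h : A ≤ B) (J : Finset ι) :
    reach e A B J ⊆ (B : Set V) := by
  rintro x ⟨X, hX, hB, hx⟩
  have h1 : x = (x - ∑ j ∈ X, e j) + ∑ j ∈ X, e j := by abel
  rw [h1]
  exact B.add_mem (h hx) (B.sum_mem hB)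

theorem sub_reach (e : ι → V) (A B : Submodule (ZMod 3) V) (J : Finset ι) :
    (A : Set V) ⊆ reach e A B J := by
  intro x hx
  exact ⟨∅, by simp, by simp, by simpa using hx⟩

/-- the loss -/
noncomputable def loss (e : ι → V) (A B : Submodule (ZMod 3) V) (J : Finset ι) : ℝ :=
  Real.log (Nat.card B) - Real.log ((reach e A B J).ncard)

section fin
variable [Finite V]

theorem card_sub (A : Submodule (ZMod 3) V) : Nat.card A = 3 ^ finrank (ZMod 3) A := by
  have := Module.natCard_eq_pow_finrank (K := ZMod 3) (V := A)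
  simpa using this

theorem ncard_coe (A : Submodule (ZMod 3) V) : (A : Set V).ncard = Nat.card A := by
  rw [← Nat.card_coe_set_eq]; rfl

theorem reach_pos (e : ι → V) (A B : Submodule (ZMod 3) V) (J : Finset ι) :
    0 < (reach e A B J).ncard := by
  rw [Set.ncard_pos (Set.toFinite _)]
  exact ⟨0, sub_reach e A B J A.zero_mem⟩

theorem loss_triv (e : ι → V) (A B : Submodule (ZMod 3) V) (J : Finset ι) :
    loss e A B J ≤ Real.log 3 * dm A B := by
  unfold loss dm
  have h1 : (A : Set V).ncard ≤ (reach e A B J).ncard :=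
    Set.ncard_le_ncard (sub_reach e A B J) (Set.toFinite _)
  rw [ncard_coe, card_sub] at h1
  rw [card_sub]
  have h2 : Real.log ((3 ^ finrank (ZMod 3) A : ℕ) : ℝ) ≤ Real.log ((reach e A B J).ncard) := by
    apply Real.log_le_log
    · positivity
    · exact_mod_cast h1
  push_cast at h2 ⊢
  rw [Real.log_pow] at h2 ⊢
  linarith

theorem loss_nonneg (e : ι → V) {A B : Submodule (ZMod 3) V} (h : A ≤ B) (J : Finset ι) :
    0 ≤ loss e A B J := by
  unfold loss
  have h1 : (reach e A B J).ncard ≤ (B : Set V).ncard :=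
    Set.ncard_le_ncard (reach_sub e h J) (Set.toFinite _)
  rw [ncard_coe] at h1
  have h2 := reach_pos e A B J
  have h3 : Real.log ((reach e A B J).ncard) ≤ Real.log (Nat.card B) := by
    apply Real.log_le_log
    · exact_mod_cast h2
    · exact_mod_cast h1
  linarith

theorem loss_zero_of_complete (e : ι → V) {A B : Submodule (ZMod 3) V} (h : A ≤ B) (J : Finset ι)
    (hc : ∀ v ∈ B, v ∈ reach e A B J) : loss e A B J ≤ 0 := by
  have : reach e A B J = (B : Set V) := Set.Subset.antisymm (reach_sub e h J) hc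
  unfold loss
  rw [this, ncard_coe, sub_self]

theorem loss_tri (e : ι → V) (A B C : Submodule (ZMod 3) V) (J : Finset ι)
    (hAB : A ≤ B) (hBC : B ≤ C) : loss e A C J ≤ loss e A B J + loss e B C J := by
  classical
  -- a section of representatives
  have hτ : ∃ τ : V ⧸ B → V, ∀ x ∈ reach e B C J,
      (Submodule.Quotient.mk (p := B) (τ (Submodule.Quotient.mk x)) = Submodule.Quotient.mk x) ∧
      ∃ X : Finset ι, X ⊆ J ∧ (∀ j ∈ X, e j ∈ C ∧ e j ∉ B) ∧
        ∑ j ∈ X, e j = τ (Submodule.Quotient.mk x) := by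
    have hq : ∀ q : V ⧸ B, ∃ t : V, (∃ x ∈ reach e B C J, Submodule.Quotient.mk x = q) →
        Submodule.Quotient.mk t = q ∧ ∃ X : Finset ι, X ⊆ J ∧ (∀ j ∈ X, e j ∈ C ∧ e j ∉ B) ∧
          ∑ j ∈ X, e j = t := by
      intro q
      by_cases hx : ∃ x ∈ reach e B C J, Submodule.Quotient.mk x = q
      · obtain ⟨x, ⟨X, hXJ, hXC, hxX⟩, rfl⟩ := hx
        refine ⟨∑ j ∈ X.filter (fun j => e j ∉ B), e j, fun _ => ⟨?_, ?_⟩⟩
        · rw [eq_comm, Submodule.Quotient.eq]
          have h1 : ∑ j ∈ X, e j = ∑ j ∈ X.filter (fun j => e j ∈ B), e j +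
              ∑ j ∈ X.filter (fun j => e j ∉ B), e j :=
            (Finset.sum_filter_add_sum_filter_not X _ _).symm
          rw [h1] at hxX
          have h2 : ∑ j ∈ X.filter (fun j => e j ∈ B), e j ∈ B :=
            B.sum_mem (fun j hj => (Finset.mem_filter.mp hj).2)
          have h3 : x - ∑ j ∈ X.filter (fun j => e j ∉ B), e j =
              (x - (∑ j ∈ X.filter (fun j => e j ∈ B), e j +
                ∑ j ∈ X.filter (fun j => e j ∉ B), e j)) +
              ∑ j ∈ X.filter (fun j => e j ∈ B), e j := by abel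
          rw [h3]
          exact B.add_mem hxX h2
        · refine ⟨X.filter (fun j => e j ∉ B), (Finset.filter_subset _ _).trans hXJ, ?_, rfl⟩
          intro j hj
          rw [Finset.mem_filter] at hj
          exact ⟨hXC j hj.1, hj.2⟩
      · exact ⟨0, fun h => absurd h hx⟩
    choose τ hτ using hq
    exact ⟨τ, fun x hx => hτ _ ⟨x, hx, rfl⟩⟩
  obtain ⟨τ, hτ⟩ := hτ
  -- the injection
  have hcard : (reach e A B J).ncard * (reach e B C J).ncard ≤
      (reach e A C J).ncard * Nat.card B := by
    rw [← ncard_coe B, ← Set.ncard_prod, ← Set.ncard_prod]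
    apply Set.ncard_le_ncard_of_injOn
      (fun p : V × V => (τ (Submodule.Quotient.mk p.2) + p.1,
        p.2 - τ (Submodule.Quotient.mk p.2)))
    · rintro ⟨s, x⟩ ⟨hs, hx⟩
      obtain ⟨h1, X, hXJ, hXC, hXs⟩ := hτ x hx
      refine ⟨?_, ?_⟩
      · obtain ⟨Y, hYJ, hYB, hYs⟩ := hs
        have hdisj : Disjoint X Y := by
          rw [Finset.disjoint_left]
          intro j hj hj'
          exact (hXC j hj).2 (hYB j hj')
        refine ⟨X ∪ Y, Finset.union_subset hXJ hYJ, ?_, ?_⟩
        · intro j hj
          rcases Finset.mem_union.mp hj with h | h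
          · exact (hXC j h).1
          · exact hBC (hYB j h)
        · rw [Finset.sum_union hdisj, hXs]
          have h2 : τ (Submodule.Quotient.mk x) + s -
              (τ (Submodule.Quotient.mk x) + ∑ j ∈ Y, e j) = s - ∑ j ∈ Y, e j := by abel
          simpa [h2] using hYs
      · have h2 := (Submodule.Quotient.eq B).mp h1.symm
        exact h2
    · rintro ⟨s, x⟩ ⟨hs, hx⟩ ⟨s', x'⟩ ⟨hs', hx'⟩ heq
      simp only [Prod.mk.injEq] at heq
      obtain ⟨h1, h2⟩ := heq
      have hsB : s ∈ B := reach_sub e hAB J hs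
      have hsB' : s' ∈ B := reach_sub e hAB J hs'
      have h3 := (hτ x hx).1
      have h4 := (hτ x' hx').1
      have h5 : (Submodule.Quotient.mk (p := B) x) = Submodule.Quotient.mk x' := by
        rw [← h3, ← h4, Submodule.Quotient.eq]
        have h6 : τ (Submodule.Quotient.mk x) - τ (Submodule.Quotient.mk x') = s' - s := by
          have h7 : τ (Submodule.Quotient.mk x) =
            τ (Submodule.Quotient.mk x') + s' - s := by rw [← h1]; abel
          rw [h7]; abel
        rw [h6]
        exact B.sub_mem hsB' hsB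
      rw [h5] at h1 h2
      have h6 : s = s' := add_left_cancel h1
      have h7 : x = x' := sub_left_injective h2
      rw [h6, h7]
  unfold loss
  have p1 : (0 : ℝ) < (reach e A B J).ncard := by exact_mod_cast reach_pos e A B J
  have p2 : (0 : ℝ) < (reach e B C J).ncard := by exact_mod_cast reach_pos e B C J
  have p3 : (0 : ℝ) < (reach e A C J).ncard := by exact_mod_cast reach_pos e A C J
  have p4 : (0 : ℝ) < (Nat.card B : ℝ) := by
    have : 0 < Nat.card B := Nat.card_pos
    exact_mod_cast this
  have h8 : Real.log (((reach e A B J).ncard : ℝ) * (reach e B C J).ncard) ≤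
      Real.log (((reach e A C J).ncard : ℝ) * Nat.card B) := by
    apply Real.log_le_log (by positivity)
    exact_mod_cast hcard
  rw [Real.log_mul p1.ne' p2.ne', Real.log_mul p3.ne' p4.ne'] at h8
  linarith

theorem loss_half [DecidableEq ι] (e : ι → V) (A B : Submodule (ZMod 3) V) (J : Finset ι) (j : ι)
    (hj : j ∈ J) (hB : e j ∈ B) :
    loss e A B J ≤ (1 / 2) * loss e A B (J.erase j) +
      (1 / 2) * loss e (A ⊔ span (ZMod 3) {e j}) B (J.erase j) := by
  classical
  set S := reach e A B (J.erase j) with hS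
  set T := reach e A B J with hT
  set U := reach e (A ⊔ span (ZMod 3) {e j}) B (J.erase j) with hU
  have hST : S ⊆ T := by
    rintro x ⟨X, h1, h2, h3⟩
    exact ⟨X, h1.trans (Finset.erase_subset _ _), h2, h3⟩
  have hST' : (fun x => e j + x) '' S ⊆ T := by
    rintro _ ⟨x, ⟨X, h1, h2, h3⟩, rfl⟩
    have hjX : j ∉ X := fun h => absurd (h1 h) (by simp)
    refine ⟨insert j X, ?_, ?_, ?_⟩
    · intro i hi
      rcases Finset.mem_insert.mp hi with h | h
      · rw [h]; exact hj
      · exact Finset.mem_of_mem_erase (h1 h)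
    · intro i hi
      rcases Finset.mem_insert.mp hi with h | h
      · rw [h]; exact hB
      · exact h2 i h
    · rw [Finset.sum_insert hjX]
      have : e j + x - (e j + ∑ i ∈ X, e i) = x - ∑ i ∈ X, e i := by abel
      simpa [this] using h3
  have hUT : U ⊆ T ∪ (fun x => e j + x) '' T := by
    rintro x ⟨X, h1, h2, h3⟩
    obtain ⟨a, ha, b, hb, hab⟩ := Submodule.mem_sup.mp h3
    obtain ⟨c, rfl⟩ := Submodule.mem_span_singleton.mp hb
    have hS1 : x - c • e j ∈ S := by
      refine ⟨X, h1, h2, ?_⟩
      have : x - c • e j - ∑ i ∈ X, e i = a := by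
        have h4 : x - ∑ i ∈ X, e i = a + c • e j := hab.symm
        have h5 : x - c • e j - ∑ i ∈ X, e i = (x - ∑ i ∈ X, e i) - c • e j := by abel
        rw [h5, h4]; abel
      rw [this]; exact ha
    have hc : c = 0 ∨ c = 1 ∨ c = 2 := by
      have hall : ∀ c : ZMod 3, c = 0 ∨ c = 1 ∨ c = 2 := by decide
      exact hall c
    rcases hc with rfl | rfl | rfl
    · left
      have := hST hS1
      simpa using this
    · left
      have := hST' ⟨_, hS1, rfl⟩
      simpa using this
    · right
      refine ⟨x - e j, ?_, by simp⟩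
      have h4 := hST' ⟨_, hS1, rfl⟩
      have h5 : e j + (x - (2 : ZMod 3) • e j) = x - e j := by
        have h6 : (2 : ZMod 3) • e j = e j + e j := by
          rw [← one_add_one_eq_two, add_smul, one_smul]
        rw [h6]; abel
      simp only [h5] at h4
      exact h4
  have hcard : S.ncard + U.ncard ≤ 2 * T.ncard := by
    have h1 : U.ncard ≤ (T ∪ (fun x => e j + x) '' T).ncard :=
      Set.ncard_le_ncard hUT (Set.toFinite _)
    have h2 := Set.ncard_union_add_ncard_inter T ((fun x => e j + x) '' T)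
      (Set.toFinite _) (Set.toFinite _)
    have h3 : ((fun x => e j + x) '' T).ncard = T.ncard :=
      Set.ncard_image_of_injective _ (add_right_injective (e j))
    have h4 : ((fun x => e j + x) '' S).ncard = S.ncard :=
      Set.ncard_image_of_injective _ (add_right_injective (e j))
    have h5 : ((fun x => e j + x) '' S).ncard ≤ (T ∩ (fun x => e j + x) '' T).ncard := by
      apply Set.ncard_le_ncard _ (Set.toFinite _)
      exact Set.subset_inter hST' (Set.image_mono hST)
    omega
  unfold loss
  rw [← hS, ← hT, ← hU]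
  have p1 : (0 : ℝ) < S.ncard := by exact_mod_cast reach_pos e A B (J.erase j)
  have p2 : (0 : ℝ) < T.ncard := by exact_mod_cast reach_pos e A B J
  have p3 : (0 : ℝ) < U.ncard := by
    exact_mod_cast reach_pos e (A ⊔ span (ZMod 3) {e j}) B (J.erase j)
  have h6 : (S.ncard : ℝ) + U.ncard ≤ 2 * T.ncard := by exact_mod_cast hcard
  have h7 : (S.ncard : ℝ) * U.ncard ≤ (T.ncard : ℝ) * T.ncard := by
    nlinarith [sq_nonneg ((S.ncard : ℝ) - U.ncard)]
  have h8 : Real.log ((S.ncard : ℝ) * U.ncard) ≤ Real.log ((T.ncard : ℝ) * T.ncard) :=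
    Real.log_le_log (by positivity) h7
  rw [Real.log_mul p1.ne' p3.ne', Real.log_mul p2.ne' p2.ne'] at h8
  linarith

/-- the loss satisfies the axioms -/
theorem loss_isLoss [DecidableEq ι] (e : ι → V) : Loss e (loss e) where
  triv := fun A B J _ => loss_triv e A B J
  tri := fun A B C J h1 h2 => loss_tri e A B C J h1 h2
  half := fun A B J j _ hj hB _ => loss_half e A B J j hj hB

end fin

end LogStar
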