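import Pool.Agent.Lib.MP_d9da44_co.LogStarDefs

set_option autoImplicit false

/-!
The main lemma: an abstract loss function satisfying a trivial bound, a triangle inequality and the
halving inequality, and vanishing on `k`-strong intervals of dimension at most `N`, is at most
`dim * log 3 * min(1, exp(-(N/4)(ρ - k - 4)))` on `ρ`-strong intervals.
-/

namespace LogStar

open Module Submodule

variable {ι V : Type*} [AddCommGroup V] [Module (ZMod 3) V]

/-! ### counting -/

theorem cnt_add (e : ι → V) {A W B : Submodule (ZMod 3) V} (h1 : A ≤ W) (h2 : W ≤ B)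
    (J : Finset ι) : cnt e A B J = cnt e A W J + cnt e W B J := by
  classical
  unfold cnt
  rw [← Finset.card_union_of_disjoint]
  · congr 1
    ext j
    simp only [Finset.mem_filter, Finset.mem_union]
    constructor
    · rintro ⟨hj, hB, hA⟩
      by_cases hW : e j ∈ W
      · exact Or.inl ⟨hj, hW, hA⟩
      · exact Or.inr ⟨hj, hB, hW⟩
    · rintro (⟨hj, hW, hA⟩ | ⟨hj, hB, hW⟩)
      · exact ⟨hj, h2 hW, hA⟩
      · exact ⟨hj, hB, fun h => hW (h1 h)⟩
  · rw [Finset.disjoint_left]
    intro j hj hj'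
    simp only [Finset.mem_filter] at hj hj'
    exact hj'.2.2 hj.2.1

theorem cnt_self (e : ι → V) (A : Submodule (ZMod 3) V) (J : Finset ι) : cnt e A A J = 0 := by
  classical
  unfold cnt
  rw [Finset.card_eq_zero, Finset.filter_eq_empty_iff]
  rintro j _ ⟨h1, h2⟩
  exact h2 h1

theorem cnt_erase_of_mem [DecidableEq ι] (e : ι → V) (W B : Submodule (ZMod 3) V) (J : Finset ι)
    (j : ι) (hj : e j ∈ W) : cnt e W B (J.erase j) = cnt e W B J := by
  classical
  unfold cnt
  congr 1
  ext i
  simp only [Finset.mem_filter, Finset.mem_erase]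
  constructor
  · rintro ⟨⟨_, h⟩, h2⟩; exact ⟨h, h2⟩
  · rintro ⟨h, h2⟩
    refine ⟨⟨?_, h⟩, h2⟩
    rintro rfl
    exact h2.2 hj

theorem cnt_erase_ge [DecidableEq ι] (e : ι → V) (W B : Submodule (ZMod 3) V) (J : Finset ι)
    (j : ι) : cnt e W B J ≤ cnt e W B (J.erase j) + 1 := by
  classical
  unfold cnt
  have : (J.filter (fun i => e i ∈ B ∧ e i ∉ W)) ⊆
      insert j ((J.erase j).filter (fun i => e i ∈ B ∧ e i ∉ W)) := by
    intro i hi
    simp only [Finset.mem_filter, Finset.mem_insert, Finset.mem_erase] at *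
    by_cases h : i = j
    · exact Or.inl h
    · exact Or.inr ⟨⟨h, hi.1⟩, hi.2⟩
  exact le_trans (Finset.card_le_card this) (Finset.card_insert_le _ _)

theorem exists_of_cnt_pos (e : ι → V) (A B : Submodule (ZMod 3) V) (J : Finset ι)
    (h : 0 < cnt e A B J) : ∃ j ∈ J, e j ∈ B ∧ e j ∉ A := by
  classical
  unfold cnt at h
  obtain ⟨j, hj⟩ := Finset.card_pos.mp h
  simp only [Finset.mem_filter] at hj
  exact ⟨j, hj.1, hj.2⟩

/-! ### relative dimension -/

theorem dm_self (A : Submodule (ZMod 3) V) : dm A A = 0 := by simp [dm]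

theorem dm_add (A W B : Submodule (ZMod 3) V) : dm A B = dm A W + dm W B := by
  unfold dm; ring

section fin
variable [Finite V]

theorem dm_nonneg {A B : Submodule (ZMod 3) V} (h : A ≤ B) : 0 ≤ dm A B := by
  unfold dm
  have : finrank (ZMod 3) A ≤ finrank (ZMod 3) B := Submodule.finrank_mono h
  have h2 : (finrank (ZMod 3) A : ℝ) ≤ finrank (ZMod 3) B := by exact_mod_cast this
  linarith

theorem one_le_dm {A B : Submodule (ZMod 3) V} (h : A < B) : 1 ≤ dm A B := by
  unfold dm
  have : finrank (ZMod 3) A < finrank (ZMod 3) B := Submodule.finrank_lt_finrank_of_lt h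
  have h2 : (finrank (ZMod 3) A : ℝ) + 1 ≤ finrank (ZMod 3) B := by exact_mod_cast this
  linarith

theorem dm_eq (A B : Submodule (ZMod 3) V) (m : ℕ)
    (h : finrank (ZMod 3) B = finrank (ZMod 3) A + m) : dm A B = m := by
  unfold dm
  rw [h]; push_cast; ring

theorem eq_of_dm_zero {A B : Submodule (ZMod 3) V} (h : A ≤ B)
    (h0 : finrank (ZMod 3) B = finrank (ZMod 3) A) : A = B :=
  Submodule.eq_of_le_of_finrank_eq h h0.symm

/-! ### strength -/

theorem Strong.mono {e : ι → V} {ρ ρ' : ℝ} {A B : Submodule (ZMod 3) V} {J : Finset ι}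
    (h : Strong e ρ A B J) (hr : ρ' ≤ ρ) : Strong e ρ' A B J := by
  intro W h1 h2
  have := h W h1 h2
  have h3 := dm_nonneg h2
  nlinarith

theorem Strong.upper {e : ι → V} {ρ : ℝ} {A B W : Submodule (ZMod 3) V} {J : Finset ι}
    (h : Strong e ρ A B J) (hW : A ≤ W) : Strong e ρ W B J :=
  fun U h1 h2 => h U (hW.trans h1) h2

theorem Strong.lower {e : ι → V} {r : ℝ} {A B W : Submodule (ZMod 3) V} {J : Finset ι}
    (h : Strong e r A B J) (hW : W ≤ B) (hc : (cnt e W B J : ℝ) = r * dm W B) :
    Strong e r A W J := by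
  intro U h1 h2
  have h3 := h U h1 (h2.trans hW)
  have h4 := cnt_add e h2 hW J
  have h5 : (cnt e U B J : ℝ) = cnt e U W J + cnt e W B J := by exact_mod_cast h4
  have h6 := dm_add U W B
  rw [h6, h5, hc] at h3
  linarith

/-- a minimiser of the ratio -/
theorem exists_min (e : ι → V) (A B : Submodule (ZMod 3) V) (J : Finset ι) (hAB : A < B) :
    ∃ (W : Submodule (ZMod 3) V) (r : ℝ), A ≤ W ∧ W < B ∧ (cnt e W B J : ℝ) = r * dm W B ∧
      Strong e r A B J := by
  classical
  have hfin : Finite {W : Submodule (ZMod 3) V // A ≤ W ∧ W < B} := inferInstance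
  have : Nonempty {W : Submodule (ZMod 3) V // A ≤ W ∧ W < B} := ⟨⟨A, le_refl _, hAB⟩⟩
  obtain ⟨⟨W, hW1, hW2⟩, hmin⟩ := Finite.exists_min
    (fun W : {W : Submodule (ZMod 3) V // A ≤ W ∧ W < B} => (cnt e W.1 B J : ℝ) / dm W.1 B)
  have hpos : 0 < dm W B := lt_of_lt_of_le one_pos (one_le_dm hW2)
  refine ⟨W, (cnt e W B J : ℝ) / dm W B, hW1, hW2, ?_, ?_⟩
  · field_simp
  · intro U h1 h2
    rcases eq_or_lt_of_le h2 with h3 | h3
    · subst h3
      rw [dm_self, mul_zero]
      positivity
    · have h4 := hmin ⟨U, h1, h3⟩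
      simp only at h4
      have hpos2 : 0 < dm U B := lt_of_lt_of_le one_pos (one_le_dm h3)
      rwa [le_div_iff₀ hpos2] at h4

/-- abstract loss function -/
structure Loss [DecidableEq ι] (e : ι → V)
    (L : Submodule (ZMod 3) V → Submodule (ZMod 3) V → Finset ι → ℝ) : Prop where
  triv : ∀ A B J, A ≤ B → L A B J ≤ Real.log 3 * dm A B
  tri : ∀ A B C J, A ≤ B → B ≤ C → L A C J ≤ L A B J + L B C J
  half : ∀ A B J j, A ≤ B → j ∈ J → e j ∈ B → e j ∉ A →
    L A B J ≤ (1 / 2) * L A B (J.erase j) +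
      (1 / 2) * L (A ⊔ span (ZMod 3) {e j}) B (J.erase j)

end fin

/-! ### the bounding function -/

/-- the bound per dimension -/
noncomputable def hh (N k ρ : ℝ) : ℝ := Real.log 3 * min 1 (Real.exp (-(N / 4) * (ρ - k - 4)))

theorem log3_pos : 0 < Real.log 3 := Real.log_pos (by norm_num)

theorem hh_nonneg (N k ρ : ℝ) : 0 ≤ hh N k ρ := by
  unfold hh
  have := log3_pos
  positivity

theorem hh_anti {N k ρ ρ' : ℝ} (hN : 0 ≤ N) (h : ρ ≤ ρ') : hh N k ρ' ≤ hh N k ρ := by
  unfold hh
  apply mul_le_mul_of_nonneg_left _ log3_pos.le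
  apply min_le_min_left
  apply Real.exp_le_exp.mpr
  nlinarith

theorem hh_small {N k ρ : ℝ} (hN : 0 ≤ N) (h : ρ ≤ k + 4) : hh N k ρ = Real.log 3 := by
  unfold hh
  rw [min_eq_left, mul_one]
  apply Real.one_le_exp
  nlinarith

theorem hh_big {N k ρ : ℝ} (hN : 0 ≤ N) (h : k + 4 ≤ ρ) :
    hh N k ρ = Real.log 3 * Real.exp (-(N / 4) * (ρ - k - 4)) := by
  unfold hh
  rw [min_eq_right]
  rw [← Real.exp_zero]
  apply Real.exp_le_exp.mpr
  nlinarith

theorem hh_down {N k ρ x : ℝ} (hN : 0 ≤ N) (h : k + 4 ≤ ρ) (hx : 0 ≤ x) (hNx : N * x ≤ 1) :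
    hh N k (ρ - x) ≤ hh N k ρ + N * hh N k ρ / 2 * x := by
  have h1 : hh N k (ρ - x) ≤ Real.log 3 * Real.exp (-(N / 4) * (ρ - x - k - 4)) := by
    unfold hh
    exact mul_le_mul_of_nonneg_left (min_le_right _ _) log3_pos.le
  have h2 : Real.exp (-(N / 4) * (ρ - x - k - 4)) =
      Real.exp (-(N / 4) * (ρ - k - 4)) * Real.exp (N * x / 4) := by
    rw [← Real.exp_add]; congr 1; ring
  have h3 : Real.exp (N * x / 4) ≤ 1 + 2 * (N * x / 4) := by
    have hz : 0 ≤ N * x / 4 := by positivity
    have h4 := Real.abs_exp_sub_one_le (x := N * x / 4) (by rw [abs_of_nonneg hz]; linarith)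
    rw [abs_of_nonneg hz] at h4
    have := le_abs_self (Real.exp (N * x / 4) - 1)
    linarith
  rw [hh_big hN h]
  rw [h2] at h1
  refine h1.trans ?_
  have h5 : 0 < Real.log 3 * Real.exp (-(N / 4) * (ρ - k - 4)) :=
    mul_pos log3_pos (Real.exp_pos _)
  calc Real.log 3 * (Real.exp (-(N / 4) * (ρ - k - 4)) * Real.exp (N * x / 4))
      = (Real.log 3 * Real.exp (-(N / 4) * (ρ - k - 4))) * Real.exp (N * x / 4) := by ring
    _ ≤ (Real.log 3 * Real.exp (-(N / 4) * (ρ - k - 4))) * (1 + 2 * (N * x / 4)) :=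
        mul_le_mul_of_nonneg_left h3 h5.le
    _ = _ := by ring

theorem hh_up {N k ρ u : ℝ} (hN : 0 ≤ N) (h : k + 4 ≤ ρ) (hu : 0 ≤ u) (hNu : N * u ≤ 4) :
    hh N k (ρ + u) ≤ hh N k ρ - N * hh N k ρ / 8 * u := by
  rw [hh_big hN h, hh_big hN (by linarith)]
  have h2 : Real.exp (-(N / 4) * (ρ + u - k - 4)) =
      Real.exp (-(N / 4) * (ρ - k - 4)) * Real.exp (-(N * u / 4)) := by
    rw [← Real.exp_add]; congr 1; ring
  have hz : 0 ≤ N * u / 4 := by positivity
  have h3 : Real.exp (-(N * u / 4)) ≤ 1 - (N * u / 4) / 2 := by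
    rw [Real.exp_neg]
    have h4 := Real.add_one_le_exp (N * u / 4)
    have h5 : (Real.exp (N * u / 4))⁻¹ ≤ (N * u / 4 + 1)⁻¹ :=
      inv_anti₀ (by linarith) h4
    refine h5.trans ?_
    rw [inv_le_iff_one_le_mul₀ (by linarith)]
    nlinarith
  rw [h2]
  have h5 : 0 < Real.log 3 * Real.exp (-(N / 4) * (ρ - k - 4)) :=
    mul_pos log3_pos (Real.exp_pos _)
  calc Real.log 3 * (Real.exp (-(N / 4) * (ρ - k - 4)) * Real.exp (-(N * u / 4)))
      = (Real.log 3 * Real.exp (-(N / 4) * (ρ - k - 4))) * Real.exp (-(N * u / 4)) := by ring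
    _ ≤ (Real.log 3 * Real.exp (-(N / 4) * (ρ - k - 4))) * (1 - (N * u / 4) / 2) :=
        mul_le_mul_of_nonneg_left h3 h5.le
    _ = _ := by ring


section main
variable [Finite V] [DecidableEq ι]

/-- deficit lemma -/
theorem deficit {e : ι → V} {L : Submodule (ZMod 3) V → Submodule (ZMod 3) V → Finset ι → ℝ}
    (hL : Loss e L) {N : ℕ} {k : ℝ}
    (h4 : ∀ A B J, A ≤ B → Strong e k A B J → dm A B ≤ N → L A B J ≤ 0)
    (J : Finset ι) (n : ℕ)
    (IH : ∀ A B : Submodule (ZMod 3) V, A ≤ B →
      finrank (ZMod 3) B ≤ finrank (ZMod 3) A + n →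
      ∀ ρ, Strong e ρ A B J → L A B J ≤ dm A B * hh N k ρ)
    (ρ : ℝ) (hρ : k + 4 < ρ) :
    ∀ m : ℕ, m ≤ n → ∀ A B : Submodule (ZMod 3) V, A ≤ B →
      finrank (ZMod 3) B = finrank (ZMod 3) A + m →
      ∀ d : ℝ, 0 ≤ d → d ≤ 1 →
      (∀ W : Submodule (ZMod 3) V, A ≤ W → W ≤ B → ρ * dm W B - d ≤ (cnt e W B J : ℝ)) →
      L A B J ≤ dm A B * hh N k ρ + N * hh N k ρ / 2 * d := by
  have hN0 : (0 : ℝ) ≤ N := Nat.cast_nonneg N
  have hh0 := hh_nonneg N k ρ
  intro m
  induction m using Nat.strong_induction_on with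
  | _ m ih =>
  intro hmn A B hAB hdim d hd0 hd1 hdef
  by_cases hs : Strong e ρ A B J
  · have h1 := IH A B hAB (by omega) ρ hs
    have h2 : 0 ≤ (N : ℝ) * hh N k ρ / 2 * d := by positivity
    linarith
  · -- not strong
    have hlt : A < B := by
      rcases eq_or_lt_of_le hAB with h | h
      · exfalso
        apply hs
        subst h
        intro W h1 h2
        have : W = A := le_antisymm h2 h1
        subst this
        rw [dm_self, mul_zero]
        positivity
      · exact h
    obtain ⟨W, r, hW1, hW2, hc, hst⟩ := exists_min e A B J hlt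
    have hr : r < ρ := by
      by_contra hcon
      push Not at hcon
      exact hs (hst.mono hcon)
    have hc1 : 1 ≤ dm W B := one_le_dm hW2
    have hd := hdef W hW1 hW2.le
    rw [hc] at hd
    have hprod : (ρ - r) * dm W B ≤ d := by linarith
    have hprod0 : 0 ≤ (ρ - r) * dm W B := mul_nonneg (by linarith) (by linarith)
    have hr1 : ρ - r ≤ 1 := by nlinarith
    have hup : Strong e r W B J := hst.upper hW1
    have hWm : finrank (ZMod 3) A ≤ finrank (ZMod 3) W := Submodule.finrank_mono hW1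
    have hWlt : finrank (ZMod 3) W < finrank (ZMod 3) B := Submodule.finrank_lt_finrank_of_lt hW2
    -- upper part
    have hupper : L W B J ≤ dm W B * hh N k ρ + N * hh N k ρ / 2 * ((ρ - r) * dm W B) := by
      by_cases hcN : dm W B ≤ N
      · have h5 : Strong e k W B J := hup.mono (by linarith)
        have h6 := h4 W B J hW2.le h5 hcN
        have h7 : 0 ≤ dm W B * hh N k ρ := mul_nonneg (by linarith) hh0
        have h8 : 0 ≤ (N : ℝ) * hh N k ρ / 2 * ((ρ - r) * dm W B) := by positivity
        linarith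
      · push Not at hcN
        have h5 := IH W B hW2.le (by omega) r hup
        have h6 : (N : ℝ) * (ρ - r) ≤ 1 := by nlinarith
        have h7 := hh_down (N := (N : ℝ)) (k := k) (ρ := ρ) (x := ρ - r) hN0 hρ.le (by linarith) h6
        have h8 : ρ - (ρ - r) = r := by ring
        rw [h8] at h7
        have h9 : dm W B * hh N k r ≤ dm W B * (hh N k ρ + N * hh N k ρ / 2 * (ρ - r)) :=
          mul_le_mul_of_nonneg_left h7 (by linarith)
        calc L W B J ≤ dm W B * hh N k r := h5
          _ ≤ dm W B * (hh N k ρ + N * hh N k ρ / 2 * (ρ - r)) := h9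
          _ = _ := by ring
    -- lower part
    have hlower : L A W J ≤ dm A W * hh N k ρ + N * hh N k ρ / 2 * (d - (ρ - r) * dm W B) := by
      apply ih (finrank (ZMod 3) W - finrank (ZMod 3) A) (by omega) (by omega) A W hW1 (by omega)
        (d - (ρ - r) * dm W B) (by linarith) (by linarith)
      intro U hU1 hU2
      have h5 := hdef U hU1 (hU2.trans hW2.le)
      have h6 := cnt_add e hU2 hW2.le J
      have h7 : (cnt e U B J : ℝ) = cnt e U W J + cnt e W B J := by exact_mod_cast h6
      rw [h7, hc, dm_add U W B] at h5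
      nlinarith
    have h9 := hL.tri A W B J hW1 hW2.le
    have h10 := dm_add A W B
    calc L A B J ≤ L A W J + L W B J := h9
      _ ≤ (dm A W * hh N k ρ + N * hh N k ρ / 2 * (d - (ρ - r) * dm W B)) +
          (dm W B * hh N k ρ + N * hh N k ρ / 2 * ((ρ - r) * dm W B)) := add_le_add hlower hupper
      _ = dm A B * hh N k ρ + N * hh N k ρ / 2 * d := by rw [h10]; ring

/-- surplus lemma -/
theorem surplus {e : ι → V} {L : Submodule (ZMod 3) V → Submodule (ZMod 3) V → Finset ι → ℝ}
    (hL : Loss e L) {N : ℕ} {k : ℝ}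
    (J : Finset ι) (n : ℕ)
    (IH : ∀ A B : Submodule (ZMod 3) V, A ≤ B →
      finrank (ZMod 3) B ≤ finrank (ZMod 3) A + n →
      ∀ ρ, Strong e ρ A B J → L A B J ≤ dm A B * hh N k ρ)
    (ρ : ℝ) (hρ : k + 4 < ρ) :
    ∀ m : ℕ, m ≤ n → ∀ A B : Submodule (ZMod 3) V, A ≤ B →
      finrank (ZMod 3) B = finrank (ZMod 3) A + m →
      ∀ s : ℝ, 0 ≤ s → s ≤ 4 → Strong e ρ A B J → ρ * dm A B + s ≤ (cnt e A B J : ℝ) →
      (∀ W : Submodule (ZMod 3) V, A < W → W ≤ B → dm A W ≤ N →
        (cnt e A W J : ℝ) < k * dm A W) →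
      L A B J ≤ dm A B * hh N k ρ - N * hh N k ρ / 8 * s := by
  have hN0 : (0 : ℝ) ≤ N := Nat.cast_nonneg N
  have hh0 := hh_nonneg N k ρ
  intro m
  induction m using Nat.strong_induction_on with
  | _ m ih =>
  intro hmn A B hAB hdim s hs0 hs4 hst hsur hsp
  have hdm : dm A B = m := dm_eq A B m hdim
  rcases Nat.eq_zero_or_pos m with hm0 | hm0
  · subst hm0
    have hE : A = B := eq_of_dm_zero hAB (by omega)
    subst hE
    rw [dm_self, cnt_self] at hsur
    have : s = 0 := by
      have : ρ * 0 + s ≤ 0 := by simpa using hsur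
      linarith
    subst this
    have h1 := hL.triv A A J le_rfl
    rw [dm_self] at *
    linarith
  · have hlt : A < B := by
      rcases eq_or_lt_of_le hAB with h | h
      · exfalso; subst h; omega
      · exact h
    have hNm : (N : ℝ) < dm A B := by
      by_contra hcon
      push Not at hcon
      have h1 := hsp B hlt le_rfl hcon
      have h2 : 1 ≤ dm A B := one_le_dm hlt
      nlinarith
    have hmpos : (0 : ℝ) < m := by exact_mod_cast hm0
    by_cases hs' : Strong e (ρ + s / m) A B J
    · have h1 := IH A B hAB (by omega) _ hs'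
      have hu : (N : ℝ) * (s / m) ≤ 4 := by
        rw [mul_div_assoc', div_le_iff₀ hmpos]
        rw [hdm] at hNm
        nlinarith
      have h2 := hh_up (N := (N : ℝ)) (k := k) (ρ := ρ) (u := s / m) hN0 hρ.le
        (by positivity) hu
      calc L A B J ≤ dm A B * hh N k (ρ + s / m) := h1
        _ ≤ dm A B * (hh N k ρ - N * hh N k ρ / 8 * (s / m)) :=
            mul_le_mul_of_nonneg_left h2 (by rw [hdm]; positivity)
        _ = dm A B * hh N k ρ - N * hh N k ρ / 8 * s := by
            rw [hdm]; field_simp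
    · obtain ⟨W, r, hW1, hW2, hc, hstr⟩ := exists_min e A B J hlt
      have hr : r < ρ + s / m := by
        by_contra hcon
        push Not at hcon
        exact hs' (hstr.mono hcon)
      have hc1 : 1 ≤ dm W B := one_le_dm hW2
      have hr2 : ρ ≤ r := by
        have h1 := hst W hW1 hW2.le
        rw [hc] at h1
        exact le_of_mul_le_mul_right h1 (by linarith)
      have hcm : dm W B ≤ m := by
        have h1 := dm_add A W B
        have h2 := dm_nonneg hW1
        rw [hdm] at h1
        linarith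
      have hs1 : (r - ρ) * dm W B ≤ s := by
        have h1 : (r - ρ) * dm W B ≤ (s / m) * m := by
          apply mul_le_mul (by linarith) hcm (by linarith) (by positivity)
        rwa [div_mul_cancel₀ _ hmpos.ne'] at h1
      have hu : (N : ℝ) * (r - ρ) ≤ 4 := by
        have h1 : (N : ℝ) * (r - ρ) ≤ m * (s / m) := by
          apply mul_le_mul (by rw [hdm] at hNm; linarith) (by linarith) (by linarith)
            (by positivity)
        rw [mul_div_cancel₀ _ hmpos.ne'] at h1
        linarith
      have hWm : finrank (ZMod 3) A ≤ finrank (ZMod 3) W := Submodule.finrank_mono hW1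
      have hWlt : finrank (ZMod 3) W < finrank (ZMod 3) B := Submodule.finrank_lt_finrank_of_lt hW2
      have hupper : L W B J ≤ dm W B * hh N k ρ - N * hh N k ρ / 8 * ((r - ρ) * dm W B) := by
        have h1 := IH W B hW2.le (by omega) r (hstr.upper hW1)
        have h2 := hh_up (N := (N : ℝ)) (k := k) (ρ := ρ) (u := r - ρ) hN0 hρ.le
          (by linarith) hu
        have h3 : ρ + (r - ρ) = r := by ring
        rw [h3] at h2
        calc L W B J ≤ dm W B * hh N k r := h1
          _ ≤ dm W B * (hh N k ρ - N * hh N k ρ / 8 * (r - ρ)) :=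
              mul_le_mul_of_nonneg_left h2 (by linarith)
          _ = _ := by ring
      have hlower : L A W J ≤ dm A W * hh N k ρ - N * hh N k ρ / 8 * (s - (r - ρ) * dm W B) := by
        have hpr : 0 ≤ (r - ρ) * dm W B := mul_nonneg (by linarith) (by linarith)
        apply ih (finrank (ZMod 3) W - finrank (ZMod 3) A) (by omega) (by omega) A W hW1 (by omega)
          (s - (r - ρ) * dm W B) (by linarith) (by linarith) ((hstr.lower hW2.le hc).mono hr2)
        · have h6 := cnt_add e hW1 hW2.le J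
          have h7 : (cnt e A B J : ℝ) = cnt e A W J + cnt e W B J := by exact_mod_cast h6
          rw [h7, hc, dm_add A W B] at hsur
          nlinarith
        · intro U hU1 hU2 hU3
          exact hsp U hU1 (hU2.trans hW2.le) hU3
      have h9 := hL.tri A W B J hW1 hW2.le
      have h10 := dm_add A W B
      calc L A B J ≤ L A W J + L W B J := h9
        _ ≤ (dm A W * hh N k ρ - N * hh N k ρ / 8 * (s - (r - ρ) * dm W B)) +
            (dm W B * hh N k ρ - N * hh N k ρ / 8 * ((r - ρ) * dm W B)) :=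
              add_le_add hlower hupper
        _ = dm A B * hh N k ρ - N * hh N k ρ / 8 * s := by rw [h10]; ring

/-- a small dense interval above `A` gives a lossless one -/
theorem exists_lossless {e : ι → V}
    {L : Submodule (ZMod 3) V → Submodule (ZMod 3) V → Finset ι → ℝ} {N : ℕ} {k : ℝ}
    (h4 : ∀ A B J, A ≤ B → Strong e k A B J → dm A B ≤ N → L A B J ≤ 0)
    (J : Finset ι) (A B W : Submodule (ZMod 3) V) (hAW : A < W) (hWB : W ≤ B)
    (hN : dm A W ≤ N) (hc : k * dm A W ≤ (cnt e A W J : ℝ)) :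
    ∃ U : Submodule (ZMod 3) V, A < U ∧ U ≤ B ∧ L A U J ≤ 0 := by
  classical
  have : Nonempty {U : Submodule (ZMod 3) V // A < U ∧ U ≤ B ∧ dm A U ≤ N ∧
      k * dm A U ≤ (cnt e A U J : ℝ)} := ⟨⟨W, hAW, hWB, hN, hc⟩⟩
  obtain ⟨⟨U, hU1, hU2, hU3, hU4⟩, hmin⟩ := Finite.exists_min
    (fun U : {U : Submodule (ZMod 3) V // A < U ∧ U ≤ B ∧ dm A U ≤ N ∧
      k * dm A U ≤ (cnt e A U J : ℝ)} => finrank (ZMod 3) U.1)
  refine ⟨U, hU1, hU2, h4 A U J hU1.le ?_ hU3⟩
  intro X hX1 hX2
  have h5 := cnt_add e hX1 hX2 J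
  have h6 : (cnt e A U J : ℝ) = cnt e A X J + cnt e X U J := by exact_mod_cast h5
  rcases eq_or_lt_of_le hX1 with h7 | h7
  · subst h7; exact hU4
  rcases eq_or_lt_of_le hX2 with h8 | h8
  · subst h8
    rw [dm_self, mul_zero]
    positivity
  · have h9 : (cnt e A X J : ℝ) < k * dm A X := by
      by_contra hcon
      push Not at hcon
      have h10 : dm A X ≤ N := by
        have := dm_add A X U
        have := dm_nonneg hX2
        linarith
      have h11 := hmin ⟨X, h7, hX2.trans hU2, h10, hcon⟩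
      simp only at h11
      have h12 : finrank (ZMod 3) X < finrank (ZMod 3) U := Submodule.finrank_lt_finrank_of_lt h8
      omega
    have h10 := dm_add A X U
    rw [h10] at hU4
    nlinarith

/-- **Main lemma.** -/
theorem main_lemma {e : ι → V}
    {L : Submodule (ZMod 3) V → Submodule (ZMod 3) V → Finset ι → ℝ}
    (hL : Loss e L) {N : ℕ} {k : ℝ} (hk : 0 ≤ k) (hN1 : 1 ≤ N)
    (h4 : ∀ A B J, A ≤ B → Strong e k A B J → dm A B ≤ N → L A B J ≤ 0) :
    ∀ n q : ℕ, ∀ A B : Submodule (ZMod 3) V, ∀ J : Finset ι, A ≤ B →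
      finrank (ZMod 3) B = finrank (ZMod 3) A + n → J.card = q →
      ∀ ρ, Strong e ρ A B J → L A B J ≤ dm A B * hh N k ρ := by
  have hN0 : (0 : ℝ) ≤ N := Nat.cast_nonneg N
  have hN1' : (1 : ℝ) ≤ N := by exact_mod_cast hN1
  intro n
  induction n using Nat.strong_induction_on with
  | _ n ihn =>
  intro q
  induction q using Nat.strong_induction_on with
  | _ q ihq =>
  -- smaller dimension
  have IH1 : ∀ (J : Finset ι) (A B : Submodule (ZMod 3) V), A ≤ B →
      finrank (ZMod 3) B < finrank (ZMod 3) A + n →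
      ∀ ρ, Strong e ρ A B J → L A B J ≤ dm A B * hh N k ρ := by
    intro J A B hAB hd ρ hs
    have := Submodule.finrank_mono hAB
    exact ihn (finrank (ZMod 3) B - finrank (ZMod 3) A) (by omega) J.card A B J hAB (by omega)
      rfl ρ hs
  -- fewer members
  have IH2 : ∀ (J : Finset ι), J.card < q → ∀ (A B : Submodule (ZMod 3) V), A ≤ B →
      finrank (ZMod 3) B ≤ finrank (ZMod 3) A + n →
      ∀ ρ, Strong e ρ A B J → L A B J ≤ dm A B * hh N k ρ := by
    intro J hJ A B hAB hd ρ hs
    rcases eq_or_lt_of_le hd with h | h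
    · exact ihq J.card hJ A B J hAB h rfl ρ hs
    · exact IH1 J A B hAB h ρ hs
  -- the tight case
  have key : ∀ (A B : Submodule (ZMod 3) V) (J : Finset ι), A < B →
      finrank (ZMod 3) B = finrank (ZMod 3) A + n → J.card = q →
      ∀ ρ, k + 4 < ρ → Strong e ρ A B J → (cnt e A B J : ℝ) = ρ * dm A B →
      L A B J ≤ dm A B * hh N k ρ := by
    intro A B J hlt hdim hq ρ hρ hst htight
    have hh0 := hh_nonneg N k ρ
    have hdm : dm A B = n := dm_eq A B n hdim
    have hdm1 : 1 ≤ dm A B := one_le_dm hlt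
    by_cases hloss : ∃ W : Submodule (ZMod 3) V, A < W ∧ W ≤ B ∧ L A W J ≤ 0
    · obtain ⟨W, hW1, hW2, hW3⟩ := hloss
      have h1 := hL.tri A W B J hW1.le hW2
      have hWlt : finrank (ZMod 3) A < finrank (ZMod 3) W :=
        Submodule.finrank_lt_finrank_of_lt hW1
      have hWle : finrank (ZMod 3) W ≤ finrank (ZMod 3) B := Submodule.finrank_mono hW2
      have h2 := IH1 J W B hW2 (by omega) ρ (hst.upper hW1.le)
      have h3 := dm_add A W B
      have h4' := dm_nonneg hW1.le
      nlinarith
    · push Not at hloss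
      -- small subspaces are sparse
      have hsparse : ∀ W : Submodule (ZMod 3) V, A < W → W ≤ B → dm A W ≤ N →
          (cnt e A W J : ℝ) < k * dm A W := by
        intro W hW1 hW2 hW3
        by_contra hcon
        push Not at hcon
        obtain ⟨U, hU1, hU2, hU3⟩ := exists_lossless h4 J A B W hW1 hW2 hW3 hcon
        exact absurd hU3 (not_le.mpr (hloss U hU1 hU2))
      -- pick an element
      have hcpos : 0 < cnt e A B J := by
        have : (0 : ℝ) < cnt e A B J := by rw [htight]; nlinarith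
        exact_mod_cast this
      obtain ⟨j, hj, hjB, hjA⟩ := exists_of_cnt_pos e A B J hcpos
      set J' := J.erase j with hJ'
      have hJ'q : J'.card < q := by
        rw [hJ', Finset.card_erase_of_mem hj, hq]
        have : 0 < J.card := Finset.card_pos.mpr ⟨j, hj⟩
        omega
      set A' := A ⊔ span (ZMod 3) {e j} with hA'
      have hjA' : e j ∈ A' := by
        rw [hA']
        exact Submodule.mem_sup_right (Submodule.mem_span_singleton_self _)
      have hAA' : A < A' := by
        refine lt_of_le_of_ne le_sup_left ?_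
        intro h
        rw [← h] at hjA'
        exact hjA hjA'
      have hA'B : A' ≤ B := sup_le hlt.le (by
        rw [Submodule.span_singleton_le_iff_mem]; exact hjB)
      -- claim D
      have claimD : L A B J' ≤ dm A B * hh N k ρ + N * hh N k ρ / 2 * 1 := by
        apply deficit hL h4 J' n (IH2 J' hJ'q) ρ hρ n le_rfl A B hlt.le hdim 1 (by norm_num)
          le_rfl
        intro W hW1 hW2
        have h1 := hst W hW1 hW2
        have h2 := cnt_erase_ge e W B J j
        have h3 : (cnt e W B J : ℝ) ≤ cnt e W B J' + 1 := by exact_mod_cast h2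
        linarith
      -- claim S
      have claimS : L A' B J' ≤ (dm A B - 1) * hh N k ρ - N * hh N k ρ / 8 * 4 := by
        classical
        have hcnt : ∀ W : Submodule (ZMod 3) V, A' ≤ W → cnt e W B J' = cnt e W B J :=
          fun W hW => cnt_erase_of_mem e W B J j (hW hjA')
        have hst' : Strong e ρ A' B J' := by
          intro W hW1 hW2
          rw [hcnt W hW1]
          exact hst W (hAA'.le.trans hW1) hW2
        have : Nonempty {W : Submodule (ZMod 3) V // A' ≤ W ∧ W ≤ B ∧ L A' W J' ≤ 0} :=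
          ⟨⟨A', le_rfl, hA'B, by
            have := hL.triv A' A' J' le_rfl
            rw [dm_self] at this
            linarith⟩⟩
        obtain ⟨⟨W, hW1, hW2, hW3⟩, hmax⟩ := Finite.exists_max
          (fun W : {W : Submodule (ZMod 3) V // A' ≤ W ∧ W ≤ B ∧ L A' W J' ≤ 0} =>
            finrank (ZMod 3) W.1)
        have hspW : ∀ U : Submodule (ZMod 3) V, W < U → U ≤ B → dm W U ≤ N →
            (cnt e W U J' : ℝ) < k * dm W U := by
          intro U hU1 hU2 hU3
          by_contra hcon
          push Not at hcon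
          obtain ⟨X, hX1, hX2, hX3⟩ := exists_lossless h4 J' W B U hU1 hU2 hU3 hcon
          have h5 := hL.tri A' W X J' hW1 hX1.le
          have h6 := hmax ⟨X, hW1.trans hX1.le, hX2, by linarith⟩
          simp only at h6
          have h7 : finrank (ZMod 3) W < finrank (ZMod 3) X :=
            Submodule.finrank_lt_finrank_of_lt hX1
          omega
        have htri := hL.tri A' W B J' hW1 hW2
        have hAW : A < W := lt_of_lt_of_le hAA' hW1
        have hWfA : finrank (ZMod 3) A < finrank (ZMod 3) W :=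
          Submodule.finrank_lt_finrank_of_lt hAW
        have hWfB : finrank (ZMod 3) W ≤ finrank (ZMod 3) B := Submodule.finrank_mono hW2
        have hdmW := dm_add A W B
        have hdm1W := one_le_dm hAW
        by_cases hcase : dm A W ≤ N
        · have h5 := hsparse W hAW hW2 hcase
          have h6 := cnt_add e hAW.le hW2 J
          have h7 : (cnt e A B J : ℝ) = cnt e A W J + cnt e W B J := by exact_mod_cast h6
          have h8 := surplus hL J' n (IH2 J' hJ'q) ρ hρ
            (finrank (ZMod 3) B - finrank (ZMod 3) W) (by omega) W B hW2 (by omega) 4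
            (by norm_num) le_rfl (hst'.upper hW1) (by
              rw [hcnt W hW1]
              rw [h7, hdmW] at htight
              nlinarith) hspW
          nlinarith
        · push Not at hcase
          have h5 := IH2 J' hJ'q W B hW2 (by omega) ρ (hst'.upper hW1)
          have h6 : (N : ℝ) + 1 ≤ dm A W := by
            have h7 : dm A W = ((finrank (ZMod 3) W - finrank (ZMod 3) A : ℕ) : ℝ) :=
              dm_eq A W _ (by omega)
            rw [h7] at hcase ⊢
            have h8 : N < finrank (ZMod 3) W - finrank (ZMod 3) A := by exact_mod_cast hcase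
            exact_mod_cast h8
          have h7 : dm W B * hh N k ρ ≤ (dm A B - 1 - N) * hh N k ρ :=
            mul_le_mul_of_nonneg_right (by linarith) hh0
          have h8 : 0 ≤ (N : ℝ) * hh N k ρ := by positivity
          nlinarith
      have hhalf := hL.half A B J j hlt.le hj hjB hjA
      have h8 : 0 ≤ (N : ℝ) * hh N k ρ := by positivity
      nlinarith
  -- the general case
  intro A B J hAB hdim hq ρ hst
  have hdm : dm A B = n := dm_eq A B n hdim
  rcases Nat.eq_zero_or_pos n with hn0 | hn0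
  · subst hn0
    have h1 := hL.triv A B J hAB
    rw [hdm] at h1 ⊢
    simpa using h1
  have hlt : A < B := by
    rcases eq_or_lt_of_le hAB with h | h
    · exfalso; subst h; omega
    · exact h
  by_cases hρ : ρ ≤ k + 4
  · rw [hh_small hN0 hρ, mul_comm]
    exact hL.triv A B J hAB
  push Not at hρ
  obtain ⟨W, r, hW1, hW2, hc, hstr⟩ := exists_min e A B J hlt
  have hr : ρ ≤ r := by
    have h1 := hst W hW1 hW2.le
    rw [hc] at h1
    exact le_of_mul_le_mul_right h1 (lt_of_lt_of_le one_pos (one_le_dm hW2))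
  rcases eq_or_lt_of_le hW1 with h | h
  · subst h
    have h1 := key A B J hlt hdim hq r (by linarith) hstr hc
    have h2 := hh_anti (N := (N : ℝ)) (k := k) hN0 hr
    exact h1.trans (mul_le_mul_of_nonneg_left h2 (dm_nonneg hAB))
  · have hWA : finrank (ZMod 3) A < finrank (ZMod 3) W := Submodule.finrank_lt_finrank_of_lt h
    have hWB : finrank (ZMod 3) W < finrank (ZMod 3) B := Submodule.finrank_lt_finrank_of_lt hW2
    have h1 := IH1 J W B hW2.le (by omega) ρ (hst.upper hW1)
    have h2 := IH1 J A W hW1 (by omega) ρ ((hstr.lower hW2.le hc).mono hr)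
    have h3 := hL.tri A W B J hW1 hW2.le
    have h4 := dm_add A W B
    rw [h4, add_mul]
    linarith

/-- the main lemma without bookkeeping -/
theorem main_bound {e : ι → V}
    {L : Submodule (ZMod 3) V → Submodule (ZMod 3) V → Finset ι → ℝ}
    (hL : Loss e L) {N : ℕ} {k : ℝ} (hk : 0 ≤ k) (hN1 : 1 ≤ N)
    (h4 : ∀ A B J, A ≤ B → Strong e k A B J → dm A B ≤ N → L A B J ≤ 0)
    (A B : Submodule (ZMod 3) V) (J : Finset ι) (hAB : A ≤ B) (ρ : ℝ)
    (hs : Strong e ρ A B J) : L A B J ≤ dm A B * hh N k ρ := by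
  have := Submodule.finrank_mono hAB
  exact main_lemma hL hk hN1 h4 (finrank (ZMod 3) B - finrank (ZMod 3) A) J.card A B J hAB
    (by omega) rfl ρ hs

end main

end LogStar
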