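import Pool.Agent.Lib.MP_d9da44_co.LogStarLoss
import Pool.Agent.Lib.MP_d9da44_co.LogStarEdmonds
import Pool.Agent.Lib.MP_d9da44_co.LogStarBase

set_option autoImplicit false

/-!
The recursion: completeness of `k`-strong intervals of dimension at most `N` gives completeness
of `2 (k + 8)`-strong intervals of dimension at most `2 ^ N`.
-/

namespace LogStar

open Module Submodule

variable {ι V : Type*} [AddCommGroup V] [Module (ZMod 3) V]

/-- `k`-strong intervals of dimension at most `N` are complete -/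
def Comp (e : ι → V) (k : ℝ) (N : ℕ) : Prop :=
  ∀ (A B : Submodule (ZMod 3) V) (J : Finset ι), A ≤ B → Strong e k A B J → dm A B ≤ N →
    ∀ v ∈ B, v ∈ reach e A B J

section fin
variable [Finite V]

/-- strength in natural numbers -/
theorem Strong.nat {e : ι → V} {m : ℕ} {A B : Submodule (ZMod 3) V} {J : Finset ι}
    (h : Strong e m A B J) : ∀ W : Submodule (ZMod 3) V, A ≤ W → W ≤ B →
      m * (finrank (ZMod 3) B - finrank (ZMod 3) W) ≤ cnt e W B J := by
  intro W h1 h2
  have h3 := h W h1 h2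
  have h4 : finrank (ZMod 3) W ≤ finrank (ZMod 3) B := Submodule.finrank_mono h2
  have h5 : dm W B = ((finrank (ZMod 3) B - finrank (ZMod 3) W : ℕ) : ℝ) :=
    dm_eq W B _ (by omega)
  rw [h5] at h3
  exact_mod_cast h3

/-- disjoint bases are strong -/
theorem strong_of_bases [DecidableEq ι] (e : ι → V) (A B : Submodule (ZMod 3) V)
    {κ : Type*} (T : Finset κ) (I : κ → Finset ι)
    (hdisj : ∀ i ∈ T, ∀ i' ∈ T, i ≠ i' → Disjoint (I i) (I i'))
    (hB : ∀ i ∈ T, ∀ j ∈ I i, e j ∈ B)
    (hspan : ∀ i ∈ T, A ⊔ span (ZMod 3) (e '' (I i : Set ι)) = B) :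
    Strong e (T.card : ℝ) A B (T.biUnion I) := by
  classical
  intro W hAW hWB
  have h4 : finrank (ZMod 3) W ≤ finrank (ZMod 3) B := Submodule.finrank_mono hWB
  have h5 : dm W B = ((finrank (ZMod 3) B - finrank (ZMod 3) W : ℕ) : ℝ) :=
    dm_eq W B _ (by omega)
  rw [h5]
  have key : ∀ i ∈ T, finrank (ZMod 3) B - finrank (ZMod 3) W ≤
      ((I i).filter (fun j => e j ∉ W)).card := by
    intro i hi
    have h6 : W ⊔ span (ZMod 3) (e '' (((I i).filter (fun j => e j ∉ W) : Finset ι) : Set ι)) = B := by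
      apply le_antisymm
      · apply sup_le hWB
        rw [span_le]
        rintro _ ⟨j, hj, rfl⟩
        rw [Finset.mem_coe, Finset.mem_filter] at hj
        exact hB i hi j hj.1
      · rw [← hspan i hi]
        apply sup_le (hAW.trans le_sup_left)
        rw [span_le]
        rintro _ ⟨j, hj, rfl⟩
        by_cases hjW : e j ∈ W
        · exact (le_sup_left : W ≤ _) hjW
        · apply Submodule.mem_sup_right
          apply subset_span
          refine ⟨j, ?_, rfl⟩
          rw [Finset.mem_coe, Finset.mem_filter]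
          exact ⟨hj, hjW⟩
    have h7 := finrank_sup_span_le e W ((I i).filter (fun j => e j ∉ W))
    rw [h6] at h7
    omega
  have h8 : T.card * (finrank (ZMod 3) B - finrank (ZMod 3) W) ≤ cnt e W B (T.biUnion I) := by
    have h9 : T.biUnion (fun i => (I i).filter (fun j => e j ∉ W)) ⊆
        (T.biUnion I).filter (fun j => e j ∈ B ∧ e j ∉ W) := by
      intro j hj
      rw [Finset.mem_biUnion] at hj
      obtain ⟨i, hi, hj⟩ := hj
      rw [Finset.mem_filter] at hj
      rw [Finset.mem_filter, Finset.mem_biUnion]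
      exact ⟨⟨i, hi, hj.1⟩, hB i hi j hj.1, hj.2⟩
    have h10 := Finset.card_le_card h9
    rw [Finset.card_biUnion] at h10
    · have h11 : ∑ _i ∈ T, (finrank (ZMod 3) B - finrank (ZMod 3) W) ≤
          ∑ i ∈ T, ((I i).filter (fun j => e j ∉ W)).card := Finset.sum_le_sum key
      rw [Finset.sum_const, smul_eq_mul] at h11
      unfold cnt
      calc T.card * (finrank (ZMod 3) B - finrank (ZMod 3) W)
          ≤ ∑ i ∈ T, ((I i).filter (fun j => e j ∉ W)).card := h11
        _ ≤ _ := by convert h10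
    · intro i hi i' hi' hne
      exact Finset.disjoint_filter_filter (hdisj i hi i' hi' hne)
  exact_mod_cast h8

/-- more than half of `B` is reached -/
theorem half_of_strong [DecidableEq ι] {e : ι → V} {k N : ℕ} (hN : 2 ≤ N)
    (hC : Comp e k N) (A B : Submodule (ZMod 3) V) (J : Finset ι) (hAB : A ≤ B)
    (hs : Strong e ((k + 8 : ℕ) : ℝ) A B J) (hd : dm A B ≤ ((2 ^ N : ℕ) : ℝ)) :
    Nat.card B < 2 * (reach e A B J).ncard := by
  have h4 : ∀ A B J, A ≤ B → Strong e (k : ℝ) A B J → dm A B ≤ N → loss e A B J ≤ 0 := by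
    intro A B J h1 h2 h3
    exact loss_zero_of_complete e h1 J (hC A B J h1 h2 h3)
  have h5 := main_bound (loss_isLoss e) (N := N) (k := (k : ℝ)) (Nat.cast_nonneg k)
    (by omega) h4 A B J hAB _ hs
  have hN0 : (0 : ℝ) ≤ N := Nat.cast_nonneg N
  have h6 : hh N k ((k + 8 : ℕ) : ℝ) = Real.log 3 * Real.exp (-(N : ℝ)) := by
    rw [hh_big hN0 (by push_cast; linarith)]
    congr 2
    push_cast
    ring
  rw [h6] at h5
  have h7 : dm A B * (Real.log 3 * Real.exp (-(N : ℝ))) < Real.log 2 := by
    have h8 : dm A B * (Real.log 3 * Real.exp (-(N : ℝ))) ≤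
        2 ^ N * (Real.log 3 * Real.exp (-(N : ℝ))) := by
      apply mul_le_mul_of_nonneg_right _ (mul_nonneg log3_pos.le (Real.exp_pos _).le)
      push_cast at hd
      exact hd
    have h9 : (2 : ℝ) ^ N * Real.exp (-(N : ℝ)) = (2 / Real.exp 1) ^ N := by
      rw [div_pow, ← Real.exp_nat_mul, mul_one, Real.exp_neg, div_eq_mul_inv]
    have he : 2.7182818283 < Real.exp 1 := Real.exp_one_gt_d9
    have h10 : (2 / Real.exp 1) ^ N ≤ (2 / 2.7 : ℝ) ^ 2 := by
      calc (2 / Real.exp 1) ^ N ≤ (2 / 2.7 : ℝ) ^ N := by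
            apply pow_le_pow_left₀ (by positivity)
            apply div_le_div_of_nonneg_left (by norm_num) (by norm_num)
            linarith
        _ ≤ (2 / 2.7 : ℝ) ^ 2 := pow_le_pow_of_le_one (by norm_num) (by norm_num) hN
    have h11 : Real.log 3 < 1.1 := by
      have : Real.log 3 < Real.log (Real.exp 1.1) := by
        apply Real.log_lt_log (by norm_num)
        have h12 : Real.exp 1.1 = Real.exp 1 * Real.exp 0.1 := by
          rw [← Real.exp_add]; norm_num
        have h13 : (0.1 : ℝ) + 1 + 0.005 ≤ Real.exp 0.1 := by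
          have := Real.quadratic_le_exp_of_nonneg (x := 0.1) (by norm_num)
          norm_num at this ⊢
          linarith
        rw [h12]
        nlinarith
      rwa [Real.log_exp] at this
    have h14 : 0.6931471803 < Real.log 2 := Real.log_two_gt_d9
    calc dm A B * (Real.log 3 * Real.exp (-(N : ℝ)))
        ≤ 2 ^ N * (Real.log 3 * Real.exp (-(N : ℝ))) := h8
      _ = Real.log 3 * (2 ^ N * Real.exp (-(N : ℝ))) := by ring
      _ ≤ 1.1 * (2 / 2.7 : ℝ) ^ 2 := by
          rw [h9]
          apply mul_le_mul h11.le h10 (by positivity) (by norm_num)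
      _ < Real.log 2 := by
          refine lt_of_lt_of_le ?_ h14.le
          norm_num
  have h15 : loss e A B J < Real.log 2 := lt_of_le_of_lt h5 h7
  unfold loss at h15
  have p1 : (0 : ℝ) < (reach e A B J).ncard := by exact_mod_cast reach_pos e A B J
  have p2 : (0 : ℝ) < (Nat.card B : ℝ) := by
    have : 0 < Nat.card B := Nat.card_pos
    exact_mod_cast this
  have h16 : Real.log (Nat.card B) < Real.log (2 * (reach e A B J).ncard) := by
    rw [Real.log_mul (by norm_num) p1.ne']
    linarith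
  have h17 := (Real.log_lt_log_iff p2 (by positivity)).mp h16
  exact_mod_cast h17

/-- the recursion -/
theorem comp_succ {e : ι → V} {k N : ℕ} (hN : 2 ≤ N) (hC : Comp e k N) :
    Comp e ((2 * (k + 8) : ℕ) : ℝ) (2 ^ N) := by
  classical
  intro A B J hAB hs hd v hv
  obtain ⟨I, hIJ, hdisj, hIB, hcard, hspan⟩ := exists_bases e A B hAB J (2 * (k + 8)) hs.nat
  let T1 : Finset (Fin (2 * (k + 8))) := Finset.univ.filter (fun i => i.1 < k + 8)
  let T2 : Finset (Fin (2 * (k + 8))) := Finset.univ.filter (fun i => ¬ i.1 < k + 8)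
  have hT1 : T1.card = k + 8 := by
    have : T1 = Finset.univ.map ⟨fun i : Fin (k + 8) => (⟨i.1, by omega⟩ : Fin (2 * (k + 8))),
        fun a b h => by
          simp only [Fin.mk.injEq] at h
          exact Fin.ext h⟩ := by
      ext i
      simp only [T1, Finset.mem_filter, Finset.mem_univ, true_and, Finset.mem_map,
        Function.Embedding.coeFn_mk]
      constructor
      · intro h
        exact ⟨⟨i.1, h⟩, rfl⟩
      · rintro ⟨a, rfl⟩
        exact a.2
    rw [this, Finset.card_map, Finset.card_univ, Fintype.card_fin]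
  have hT2 : T2.card = k + 8 := by
    have h1 := Finset.card_filter_add_card_filter_not
      (s := (Finset.univ : Finset (Fin (2 * (k + 8))))) (fun i => i.1 < k + 8)
    rw [Finset.card_univ, Fintype.card_fin] at h1
    have h2 : T1.card + T2.card = 2 * (k + 8) := h1
    omega
  have s1 : Strong e ((k + 8 : ℕ) : ℝ) A B (T1.biUnion I) := by
    have h1 := strong_of_bases e A B T1 I (fun i _ i' _ h => hdisj i i' h) (fun i _ => hIB i)
      (fun i _ => hspan i)
    simpa only [hT1] using h1
  have s2 : Strong e ((k + 8 : ℕ) : ℝ) A B (T2.biUnion I) := by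
    have h1 := strong_of_bases e A B T2 I (fun i _ i' _ h => hdisj i i' h) (fun i _ => hIB i)
      (fun i _ => hspan i)
    simpa only [hT2] using h1
  have r1 := half_of_strong hN hC A B _ hAB s1 hd
  have r2 := half_of_strong hN hC A B _ hAB s2 hd
  set R1 := reach e A B (T1.biUnion I) with hR1
  set R2 := reach e A B (T2.biUnion I) with hR2
  -- intersect `R1` and `v - R2`
  have himg : ((fun x => v - x) '' R2).ncard = R2.ncard :=
    Set.ncard_image_of_injective _ sub_right_injective
  have hsub : R1 ∪ ((fun x => v - x) '' R2) ⊆ (B : Set V) := by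
    apply Set.union_subset (reach_sub e hAB _)
    rintro _ ⟨x, hx, rfl⟩
    exact B.sub_mem hv (reach_sub e hAB _ hx)
  have hne : (R1 ∩ ((fun x => v - x) '' R2)).Nonempty := by
    by_contra hcon
    rw [Set.not_nonempty_iff_eq_empty] at hcon
    have h1 := Set.ncard_union_add_ncard_inter R1 ((fun x => v - x) '' R2)
      (Set.toFinite _) (Set.toFinite _)
    rw [hcon, Set.ncard_empty, himg] at h1
    have h2 : (R1 ∪ ((fun x => v - x) '' R2)).ncard ≤ Nat.card B := by
      rw [← ncard_coe B]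
      exact Set.ncard_le_ncard hsub (Set.toFinite _)
    omega
  obtain ⟨x, ⟨X, hX1, hX2, hX3⟩, ⟨y, ⟨Y, hY1, hY2, hY3⟩, hxy⟩⟩ := hne
  simp only at hxy
  have hXY : Disjoint X Y := by
    rw [Finset.disjoint_left]
    intro j hjX hjY
    have h1 := hX1 hjX
    have h2 := hY1 hjY
    rw [Finset.mem_biUnion] at h1 h2
    obtain ⟨i, hi, hij⟩ := h1
    obtain ⟨i', hi', hij'⟩ := h2
    have hne : i ≠ i' := by
      rintro rfl
      simp only [T1, T2, Finset.mem_filter, Finset.mem_univ, true_and] at hi hi'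
      exact hi' hi
    exact (Finset.disjoint_left.mp (hdisj i i' hne)) hij hij'
  refine ⟨X ∪ Y, ?_, ?_, ?_⟩
  · intro j hj
    rcases Finset.mem_union.mp hj with h | h
    · obtain ⟨i, _, hij⟩ := Finset.mem_biUnion.mp (hX1 h)
      exact hIJ i hij
    · obtain ⟨i, _, hij⟩ := Finset.mem_biUnion.mp (hY1 h)
      exact hIJ i hij
  · intro j hj
    rcases Finset.mem_union.mp hj with h | h
    · exact hX2 j h
    · exact hY2 j h
  · rw [Finset.sum_union hXY]
    have h1 : v - (∑ j ∈ X, e j + ∑ j ∈ Y, e j) = (x - ∑ j ∈ X, e j) + (y - ∑ j ∈ Y, e j) := by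
      rw [← hxy]; abel
    rw [h1]
    exact A.add_mem hX3 hY3

/-- the base of the recursion -/
theorem comp_base {e : ι → V} {k N : ℕ} (hk0 : 0 < k)
    (hk : (1 + 2 / 2 ^ k : ℝ) ^ N < 2) : Comp e (k : ℝ) N := by
  intro A B J hAB hs hd v hv
  obtain ⟨I, hIJ, hdisj, hIB, hcard, hspan⟩ := exists_bases e A B hAB J k hs.nat
  have hle : finrank (ZMod 3) A ≤ finrank (ZMod 3) B := Submodule.finrank_mono hAB
  have hd' : finrank (ZMod 3) B - finrank (ZMod 3) A ≤ N := by
    have h5 : dm A B = ((finrank (ZMod 3) B - finrank (ZMod 3) A : ℕ) : ℝ) :=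
      dm_eq A B _ (by omega)
    rw [h5] at hd
    exact_mod_cast hd
  have h1 : (1 + 2 / 2 ^ k : ℝ) ^ (finrank (ZMod 3) B - finrank (ZMod 3) A) < 2 := by
    refine lt_of_le_of_lt ?_ hk
    apply pow_le_pow_right₀ _ hd'
    have : (0 : ℝ) < 2 / 2 ^ k := by positivity
    linarith
  obtain ⟨X, hX1, hX2⟩ := base_complete e A B hAB k hk0 I hdisj hIB hcard hspan h1 v hv
  refine ⟨X, ?_, ?_, hX2⟩
  · intro j hj
    obtain ⟨i, hi⟩ := hX1 j hj
    exact hIJ i hi
  · intro j hj
    obtain ⟨i, hi⟩ := hX1 j hj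
    exact hIB i j hi

end fin

/-! ### cubes -/

/-- `K`-strong complete configurations give sums of `K` cubes -/
theorem cubes_of_comp {n K : ℕ}
    (T : Fin K → ((Fin n → ZMod 3) ≃ₗ[ZMod 3] (Fin n → ZMod 3)))
    (hC : ∀ e : (Fin K × Fin n) → (Fin n → ZMod 3), Comp e (K : ℝ) n) (v : Fin n → ZMod 3) :
    ∃ x : Fin K → Fin n → ZMod 3, (∀ i m, x i m = 0 ∨ x i m = 1) ∧ ∑ i, T i (x i) = v := by
  classical
  let e : (Fin K × Fin n) → (Fin n → ZMod 3) := fun p => T p.1 (Pi.single p.2 1)
  let I : Fin K → Finset (Fin K × Fin n) := fun i => Finset.univ.image (fun m => (i, m))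
  have hspanI : ∀ i ∈ (Finset.univ : Finset (Fin K)),
      (⊥ : Submodule (ZMod 3) (Fin n → ZMod 3)) ⊔ span (ZMod 3) (e '' (I i : Set _)) = ⊤ := by
    intro i _
    rw [bot_sup_eq]
    have h1 : e '' (I i : Set (Fin K × Fin n)) =
        Set.range (fun m => T i (Pi.single m (1 : ZMod 3))) := by
      ext x
      simp only [I, Finset.coe_image, Finset.coe_univ, Set.image_univ, Set.mem_image,
        Set.mem_range, exists_exists_eq_and, e]
    rw [h1]
    have h2 := ((Pi.basisFun (ZMod 3) (Fin n)).map (T i)).span_eq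
    rw [← h2]
    congr 1
    ext x
    simp only [Set.mem_range, Basis.map_apply, Pi.basisFun_apply]
  have hstrong : Strong e ((Finset.univ : Finset (Fin K)).card : ℝ) ⊥ ⊤
      (Finset.univ.biUnion I) := by
    apply strong_of_bases e ⊥ ⊤ Finset.univ I
    · intro i _ i' _ hne
      rw [Finset.disjoint_left]
      intro p hp hp'
      simp only [I, Finset.mem_image, Finset.mem_univ, true_and] at hp hp'
      obtain ⟨m, rfl⟩ := hp
      obtain ⟨m', hm'⟩ := hp'
      exact hne (congrArg Prod.fst hm').symm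
    · intro i _ j _
      exact Submodule.mem_top
    · exact hspanI
  rw [Finset.card_univ, Fintype.card_fin] at hstrong
  have hdm : dm (⊥ : Submodule (ZMod 3) (Fin n → ZMod 3)) ⊤ ≤ n := by
    unfold dm
    rw [finrank_top, finrank_bot, Module.finrank_fin_fun]
    simp
  obtain ⟨X, -, -, hX⟩ := hC e ⊥ ⊤ _ bot_le hstrong hdm v Submodule.mem_top
  rw [Submodule.mem_bot, sub_eq_zero] at hX
  refine ⟨fun i m => if (i, m) ∈ X then 1 else 0, ?_, ?_⟩
  · intro i m
    by_cases h : (i, m) ∈ X
    · right; simp [h]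
    · left; simp [h]
  · rw [hX]
    have h1 : ∀ i, T i (fun m => if (i, m) ∈ X then (1 : ZMod 3) else 0) =
        ∑ m, if (i, m) ∈ X then e (i, m) else 0 := by
      intro i
      have h2 : (fun m => if (i, m) ∈ X then (1 : ZMod 3) else 0) =
          ∑ m, if (i, m) ∈ X then (Pi.single m 1 : Fin n → ZMod 3) else 0 := by
        ext m
        rw [Finset.sum_apply, Finset.sum_eq_single m]
        · split_ifs <;> simp
        · intro b _ hb
          split_ifs
          · rw [Pi.single_eq_of_ne (Ne.symm hb)]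
          · rfl
        · intro h; exact absurd (Finset.mem_univ _) h
      rw [h2, map_sum]
      apply Finset.sum_congr rfl
      intro m _
      split_ifs
      · rfl
      · exact map_zero _
    rw [Finset.sum_congr rfl (fun i _ => h1 i), ← Finset.sum_product']
    rw [Finset.univ_product_univ, ← Finset.sum_filter]
    apply Finset.sum_congr
    · ext p; simp
    · intro p _; rfl

/-- iterated exponential with a seed: `tow N 0 = N`, `tow N (j+1) = 2 ^ tow N j` -/
def tow (N : ℕ) : ℕ → ℕ
  | 0 => N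
  | j + 1 => 2 ^ tow N j

theorem two_le_tow (N : ℕ) (hN : 2 ≤ N) (j : ℕ) : 2 ≤ tow N j := by
  induction j with
  | zero => exact hN
  | succ j ih =>
    calc 2 = 2 ^ 1 := by norm_num
      _ ≤ 2 ^ tow N j := Nat.pow_le_pow_right (by norm_num) (by omega)

/-- the recursion, iterated -/
theorem comp_tow {ι V : Type*} [AddCommGroup V] [Module (ZMod 3) V] [Finite V] (e : ι → V)
    (k N : ℕ) (hN : 2 ≤ N) (h0 : Comp e (k : ℝ) N)
    (j : ℕ) : Comp e (((k + 16) * 2 ^ j - 16 : ℕ) : ℝ) (tow N j) := by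
  induction j with
  | zero =>
    have h2 : (k + 16) * 2 ^ 0 - 16 = k := by simp
    rw [h2]
    exact h0
  | succ j ih =>
    have h := comp_succ (two_le_tow N hN j) ih
    have h1 : 1 ≤ 2 ^ j := Nat.one_le_two_pow
    have h2 : 2 * ((k + 16) * 2 ^ j - 16 + 8) = (k + 16) * 2 ^ (j + 1) - 16 := by
      rw [pow_succ, ← mul_assoc]
      have h3 : 16 ≤ (k + 16) * 2 ^ j := by nlinarith
      omega
    rw [h2] at h
    exact h

theorem Comp.mono {ι V : Type*} [AddCommGroup V] [Module (ZMod 3) V] {e : ι → V} {k : ℝ}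
    {N N' : ℕ} (h : Comp e k N) (hN : N' ≤ N) : Comp e k N' := by
  intro A B J h1 h2 h3
  exact h A B J h1 h2 (h3.trans (by exact_mod_cast hN))

/-- numerical condition for the base: `N / 2^(k-1) ≤ 1/2` -/
theorem base_num (k N : ℕ) (h : (N : ℝ) * (2 / 2 ^ k) ≤ 1 / 2) : (1 + 2 / 2 ^ k : ℝ) ^ N < 2 := by
  have h1 : (1 + 2 / 2 ^ k : ℝ) ≤ Real.exp (2 / 2 ^ k) := by
    have := Real.add_one_le_exp (2 / 2 ^ k : ℝ)
    linarith
  have h2 : (1 + 2 / 2 ^ k : ℝ) ^ N ≤ Real.exp (2 / 2 ^ k) ^ N :=
    pow_le_pow_left₀ (by positivity) h1 _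
  rw [← Real.exp_nat_mul] at h2
  refine lt_of_le_of_lt h2 ?_
  have h4 : Real.exp ((N : ℝ) * (2 / 2 ^ k)) < Real.exp (Real.log 2) := by
    apply Real.exp_lt_exp.mpr
    have := Real.log_two_gt_d9
    linarith
  rwa [Real.exp_log (by norm_num)] at h4

end LogStar
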